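import Pool.Agent.Lib.MP_7f581e_Z.Crv.Defs

/-!
# Places of a function field of a curve over `𝕜`
-/

namespace MP7Z

open Polynomial

section Aux

variable {𝕜 E : Type} [Field 𝕜] [IsAlgClosed 𝕜] [Field E] [Algebra 𝕜 E]

/-- The integral order of a function (`0` for the zero function). -/
noncomputable def Place.pord (v : Place 𝕜 E) (f : E) : ℤ := (v.ord f).untopD 0

theorem Place.ord_eq_pord (v : Place 𝕜 E) {f : E} (hf : f ≠ 0) : v.ord f = (v.pord f : WithTop ℤ) := by
  unfold Place.pord
  have h : v.ord f ≠ ⊤ := by rwa [AddValuation.ne_top_iff]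
  obtain ⟨n, hn⟩ := WithTop.ne_top_iff_exists.1 h
  rw [← hn]; rfl

theorem Place.pord_eq_iff (v : Place 𝕜 E) {f : E} (hf : f ≠ 0) (n : ℤ) : v.pord f = n ↔ v.ord f = n := by
  rw [v.ord_eq_pord hf]; exact WithTop.coe_inj.symm

theorem Place.lt_pord_iff (v : Place 𝕜 E) {f : E} (hf : f ≠ 0) (n : ℤ) : n < v.pord f ↔ (n : WithTop ℤ) < v.ord f := by
  rw [v.ord_eq_pord hf]; exact WithTop.coe_lt_coe.symm

theorem Place.le_pord_iff (v : Place 𝕜 E) {f : E} (hf : f ≠ 0) (n : ℤ) : n ≤ v.pord f ↔ (n : WithTop ℤ) ≤ v.ord f := by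
  rw [v.ord_eq_pord hf]; exact WithTop.coe_le_coe.symm

theorem Place.pord_one (v : Place 𝕜 E) : v.pord 1 = 0 := by
  rw [v.pord_eq_iff one_ne_zero]; simp

theorem Place.pord_mul (v : Place 𝕜 E) {f g : E} (hf : f ≠ 0) (hg : g ≠ 0) :
    v.pord (f * g) = v.pord f + v.pord g := by
  rw [v.pord_eq_iff (mul_ne_zero hf hg), AddValuation.map_mul, v.ord_eq_pord hf, v.ord_eq_pord hg]
  rfl

theorem Place.pord_pow (v : Place 𝕜 E) {f : E} (hf : f ≠ 0) (n : ℕ) : v.pord (f ^ n) = n * v.pord f := by
  induction n with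
  | zero => simp [v.pord_one]
  | succ n ih =>
    rw [pow_succ, v.pord_mul (pow_ne_zero _ hf) hf, ih]; push_cast; ring

theorem Place.pord_inv (v : Place 𝕜 E) {f : E} (hf : f ≠ 0) : v.pord f⁻¹ = - v.pord f := by
  have h : v.pord (f * f⁻¹) = v.pord f + v.pord f⁻¹ := v.pord_mul hf (inv_ne_zero hf)
  rw [mul_inv_cancel₀ hf, v.pord_one] at h
  omega

theorem Place.pord_zpow (v : Place 𝕜 E) {f : E} (hf : f ≠ 0) (n : ℤ) : v.pord (f ^ n) = n * v.pord f := by
  obtain ⟨m, rfl | rfl⟩ := n.eq_nat_or_neg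
  · rw [zpow_natCast, v.pord_pow hf]
  · rw [zpow_neg, zpow_natCast, v.pord_inv (pow_ne_zero _ hf), v.pord_pow hf]; ring

theorem Place.pord_div (v : Place 𝕜 E) {f g : E} (hf : f ≠ 0) (hg : g ≠ 0) :
    v.pord (f / g) = v.pord f - v.pord g := by
  rw [div_eq_mul_inv, v.pord_mul hf (inv_ne_zero hg), v.pord_inv hg]; ring

theorem Place.ord_algebraMap_of_ne (v : Place 𝕜 E) {c : 𝕜} (hc : c ≠ 0) : v.ord (algebraMap 𝕜 E c) = 0 := by
  have h0 : algebraMap 𝕜 E c ≠ 0 := by simpa using hc
  have h1 : (0 : ℤ) ≤ v.pord (algebraMap 𝕜 E c) := by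
    rw [v.le_pord_iff h0]; exact v.const c
  have h2 : (0 : ℤ) ≤ v.pord (algebraMap 𝕜 E c)⁻¹ := by
    rw [v.le_pord_iff (inv_ne_zero h0), ← map_inv₀]; exact v.const _
  rw [v.pord_inv h0] at h2
  have h3 : v.pord (algebraMap 𝕜 E c) = 0 := by omega
  rw [v.ord_eq_pord h0, h3]; rfl

theorem Place.pord_const (v : Place 𝕜 E) (c : 𝕜) : v.pord (algebraMap 𝕜 E c) = 0 := by
  rcases eq_or_ne c 0 with rfl | hc
  · simp [Place.pord]
  · rw [v.pord_eq_iff (by simpa using hc), v.ord_algebraMap_of_ne hc]; rfl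

theorem Place.pord_add (v : Place 𝕜 E) {f g : E} (hf : f ≠ 0) (hg : g ≠ 0) (h : v.pord f < v.pord g) :
    f + g ≠ 0 ∧ v.pord (f + g) = v.pord f := by
  have h1 : v.ord f < v.ord g := by
    rw [v.ord_eq_pord hf, v.ord_eq_pord hg]; exact WithTop.coe_lt_coe.2 h
  have h2 := AddValuation.map_add_eq_of_lt_left v.ord h1
  have h3 : f + g ≠ 0 := by
    rw [← AddValuation.ne_top_iff v.ord, h2, AddValuation.ne_top_iff]; exact hf
  exact ⟨h3, by rw [v.pord_eq_iff h3, h2, v.ord_eq_pord hf]⟩

/-- A place is determined by its valuation ring. -/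
theorem Place.eq_of_forall_nonneg {v w : Place 𝕜 E} (h : ∀ f, 0 ≤ v.ord f → 0 ≤ w.ord f) : v = w := by
  have h' : ∀ f, f ≠ 0 → 0 ≤ v.pord f → 0 ≤ w.pord f := by
    intro f hf h1
    rw [w.le_pord_iff hf]; apply h; exact (v.le_pord_iff hf 0).1 h1
  obtain ⟨z, hz⟩ := v.exists_unif
  obtain ⟨y, hy⟩ := w.exists_unif
  have hz0 : z ≠ 0 := by rintro rfl; simp at hz
  have hy0 : y ≠ 0 := by rintro rfl; simp at hy
  have hz1 : v.pord z = 1 := by rw [v.pord_eq_iff hz0]; exact hz
  have hy1 : w.pord y = 1 := by rw [w.pord_eq_iff hy0]; exact hy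
  -- the key formula
  have key : ∀ f, f ≠ 0 → w.pord f = v.pord f * w.pord z := by
    intro f hf
    have hg : z ^ (- v.pord f) * f ≠ 0 := mul_ne_zero (zpow_ne_zero _ hz0) hf
    have h1 : v.pord (z ^ (- v.pord f) * f) = 0 := by
      rw [v.pord_mul (zpow_ne_zero _ hz0) hf, v.pord_zpow hz0, hz1]; ring
    have h2 := h' _ hg h1.ge
    have h3 := h' _ (inv_ne_zero hg) (by rw [v.pord_inv hg, h1]; simp)
    rw [w.pord_inv hg] at h3
    rw [w.pord_mul (zpow_ne_zero _ hz0) hf, w.pord_zpow hz0] at h2 h3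
    linarith
  have h1 := key y hy0
  rw [hy1] at h1
  have h2 : 0 ≤ w.pord z := h' z hz0 (by omega)
  have h3 : w.pord z = 1 := by
    have : w.pord z ∣ 1 := ⟨v.pord y, by rw [h1]; ring⟩
    exact Int.eq_one_of_dvd_one h2 this
  have h4 : v.ord = w.ord := by
    apply AddValuation.ext
    intro f
    rcases eq_or_ne f 0 with rfl | hf
    · simp
    · rw [v.ord_eq_pord hf, w.ord_eq_pord hf, key f hf, h3, mul_one]
  exact Place.ext h4

/-- A place of positive order at `v` and negative order at the places of a finite set. -/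
theorem places_approx (v : Place 𝕜 E) (S : Finset (Place 𝕜 E)) (hv : v ∉ S) :
    ∃ z : E, z ≠ 0 ∧ 0 < v.pord z ∧ ∀ u ∈ S, u.pord z < 0 := by
  classical
  induction S using Finset.induction_on with
  | empty =>
    obtain ⟨z, hz⟩ := v.exists_unif
    have hz0 : z ≠ 0 := by rintro rfl; simp at hz
    refine ⟨z, hz0, ?_, by simp⟩
    rw [(v.pord_eq_iff hz0 1).2 hz]; exact one_pos
  | insert u S hu ih =>
    rw [Finset.mem_insert, not_or] at hv
    obtain ⟨w, hw0, hwv, hw⟩ := ih hv.2
    -- the case of two places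
    have two : ∀ v u : Place 𝕜 E, v ≠ u → ∃ f : E, f ≠ 0 ∧ 0 ≤ v.pord f ∧ u.pord f < 0 := by
      intro v u hvu
      by_contra hcon
      push Not at hcon
      apply hvu
      apply Place.eq_of_forall_nonneg
      intro f hf
      rcases eq_or_ne f 0 with rfl | hf0
      · simp
      · exact (u.le_pord_iff hf0 0).1 (hcon f hf0 ((v.le_pord_iff hf0 0).2 hf))
    obtain ⟨f, hf0, hf1, hf2⟩ := two v u hv.1
    obtain ⟨g, hg0, hg1, hg2⟩ := two u v (Ne.symm hv.1)
    set y := f / g with hy
    have hy0 : y ≠ 0 := div_ne_zero hf0 hg0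
    have hy1 : 0 < v.pord y := by rw [hy, v.pord_div hf0 hg0]; omega
    have hy2 : u.pord y < 0 := by rw [hy, u.pord_div hf0 hg0]; omega
    by_cases hwu : u.pord w < 0
    · refine ⟨w, hw0, hwv, ?_⟩
      intro u' hu'
      rcases Finset.mem_insert.1 hu' with rfl | h
      · exact hwu
      · exact hw u' h
    · -- the power
      set r : ℕ := 1 + ∑ u' ∈ insert u S, (u'.pord w).natAbs + (v.pord w).natAbs with hr
      have hr1 : ∀ u' ∈ insert u S, (u'.pord w).natAbs < r := by
        intro u' hu'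
        have := Finset.single_le_sum (f := fun u' : Place 𝕜 E => (u'.pord w).natAbs)
          (fun i _ => Nat.zero_le _) hu'
        omega
      have hr2 : (v.pord w).natAbs < r := by omega
      have hyr : y ^ r ≠ 0 := pow_ne_zero _ hy0
      have hne : ∀ u' : Place 𝕜 E, (u'.pord w).natAbs < r → u'.pord y ≠ 0 → u'.pord (y ^ r) ≠ u'.pord w := by
        intro u' h1 h2 h3
        rw [u'.pord_pow hy0] at h3
        have h4 : (u'.pord w).natAbs = r * (u'.pord y).natAbs := by
          rw [← h3, Int.natAbs_mul, Int.natAbs_natCast]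
        have h5 : 1 ≤ (u'.pord y).natAbs := by omega
        nlinarith
      have hvne := hne v hr2 hy1.ne'
      have hvpow : 0 < v.pord (y ^ r) := by
        rw [v.pord_pow hy0]
        have : (0:ℤ) < r := by omega
        positivity
      have hsum0 : w + y ^ r ≠ 0 := by
        rcases lt_or_gt_of_ne hvne with h | h
        · rw [add_comm]; exact (v.pord_add hyr hw0 h).1
        · exact (v.pord_add hw0 hyr h).1
      refine ⟨w + y ^ r, hsum0, ?_, ?_⟩
      · rcases lt_or_gt_of_ne hvne with h | h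
        · rw [add_comm, (v.pord_add hyr hw0 h).2]; exact hvpow
        · rw [(v.pord_add hw0 hyr h).2]; exact hwv
      · intro u' hu'
        by_cases h0 : u'.pord y = 0
        · -- then `u' ≠ u`
          have hu'S : u' ∈ S := by
            rcases Finset.mem_insert.1 hu' with rfl | h
            · omega
            · exact h
          have h1 : u'.pord w < u'.pord (y ^ r) := by
            rw [u'.pord_pow hy0, h0, mul_zero]; exact hw u' hu'S
          rw [(u'.pord_add hw0 hyr h1).2]; exact hw u' hu'S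
        · have hne' := hne u' (hr1 u' hu') h0
          rcases Finset.mem_insert.1 hu' with rfl | hS
          · have h2 : u'.pord (y ^ r) < 0 := by
              rw [u'.pord_pow hy0]
              have : (0:ℤ) < r := by omega
              nlinarith
            have h3 : u'.pord (y ^ r) < u'.pord w := by omega
            rw [add_comm, (u'.pord_add hyr hw0 h3).2]; exact h2
          · have h2 := hw u' hS
            rcases lt_or_gt_of_ne hne' with h | h
            · rw [add_comm, (u'.pord_add hyr hw0 h).2]; omega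
            · rw [(u'.pord_add hw0 hyr h).2]; exact h2

/-- A function which is a unit at `v` and vanishes at the places of a finite set. -/
theorem places_approx' (v : Place 𝕜 E) (S : Finset (Place 𝕜 E)) (hv : v ∉ S) :
    ∃ x : E, x ≠ 0 ∧ v.pord x = 0 ∧ ∀ u ∈ S, 0 < u.pord x := by
  obtain ⟨z, hz0, hz1, hz2⟩ := places_approx v S hv
  have h1 := v.pord_add one_ne_zero hz0 (by rw [v.pord_one]; exact hz1)
  refine ⟨(1 + z)⁻¹, inv_ne_zero h1.1, ?_, ?_⟩
  · rw [v.pord_inv h1.1, h1.2, v.pord_one]; rfl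
  · intro u hu
    have h2 := u.pord_add hz0 one_ne_zero (by rw [u.pord_one]; exact hz2 u hu)
    rw [u.pord_inv h1.1, add_comm 1 z, h2.2]
    have := hz2 u hu
    omega

/-- In an extension of degree `n` of `𝕜(t)`, any `n + 1` elements satisfy a nontrivial relation
with coefficients in `𝕜[t]`. -/
theorem places_exists_rel {t : E}
    [Module.Finite (IntermediateField.adjoin 𝕜 {t}) E]
    (x : Fin (Module.finrank (IntermediateField.adjoin 𝕜 {t}) E + 1) → E) :
    ∃ P : Fin (Module.finrank (IntermediateField.adjoin 𝕜 {t}) E + 1) → 𝕜[X],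
      (∃ i, aeval t (P i) ≠ 0) ∧ ∑ i, aeval t (P i) * x i = 0 := by
  have hdep : ¬ LinearIndependent (IntermediateField.adjoin 𝕜 {t}) x := by
    intro h
    have := h.fintype_card_le_finrank
    simp at this
  rw [Fintype.not_linearIndependent_iff] at hdep
  obtain ⟨g, hg, i0, hi0⟩ := hdep
  have hrep : ∀ i, ∃ r s : 𝕜[X], (g i : E) = aeval t r / aeval t s := by
    intro i
    exact IntermediateField.mem_adjoin_simple_iff 𝕜 _ |>.1 (g i).2
  choose r s hrs using hrep
  classical
  -- replace zero denominators by one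
  let r' : Fin (Module.finrank (IntermediateField.adjoin 𝕜 {t}) E + 1) → 𝕜[X] :=
    fun i => if aeval t (s i) = 0 then 0 else r i
  let s' : Fin (Module.finrank (IntermediateField.adjoin 𝕜 {t}) E + 1) → 𝕜[X] :=
    fun i => if aeval t (s i) = 0 then 1 else s i
  have hs' : ∀ i, aeval t (s' i) ≠ 0 := by
    intro i
    by_cases h : aeval t (s i) = 0
    · simp [s', h]
    · simpa [s', h] using h
  have hrs' : ∀ i, (g i : E) * aeval t (s' i) = aeval t (r' i) := by
    intro i
    by_cases h : aeval t (s i) = 0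
    · simp [s', r', h, hrs]
    · simp only [s', r', h, if_false]
      rw [hrs i]; field_simp
  refine ⟨fun i => r' i * ∏ j ∈ Finset.univ.erase i, s' j, ⟨i0, ?_⟩, ?_⟩
  · rw [map_mul, map_prod]
    refine mul_ne_zero ?_ (Finset.prod_ne_zero_iff.2 fun j _ => hs' j)
    rw [← hrs' i0]
    refine mul_ne_zero ?_ (hs' i0)
    simpa using hi0
  · have h1 : ∀ i, aeval t (r' i * ∏ j ∈ Finset.univ.erase i, s' j) * x i =
        (∏ j, aeval t (s' j)) * (g i • x i) := by
      intro i
      rw [map_mul, map_prod, ← hrs' i, ← Finset.mul_prod_erase Finset.univ _ (Finset.mem_univ i),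
        IntermediateField.smul_def, smul_eq_mul]
      ring
    rw [Finset.sum_congr rfl (fun i _ => h1 i), ← Finset.mul_sum, hg, mul_zero]

/-- The value of a polynomial in an element of positive valuation. -/
theorem places_val_aeval {Γ : Type*} [LinearOrderedCommGroupWithZero Γ]
    (v : Valuation E Γ) (hC : ∀ c : 𝕜, c ≠ 0 → v (algebraMap 𝕜 E c) = 1) {t : E} (ht0 : t ≠ 0)
    (ht : v t < 1)
    {P : 𝕜[X]} (hP : P ≠ 0) : v (aeval t P) = v t ^ P.natTrailingDegree := by
  have hvt : 0 < v t := by rw [zero_lt_iff]; exact (Valuation.ne_zero_iff v).2 ht0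
  rw [aeval_eq_sum_range]
  have hk : P.natTrailingDegree ∈ Finset.range (P.natDegree + 1) := by
    rw [Finset.mem_range]
    exact Nat.lt_succ_of_le P.natTrailingDegree_le_natDegree
  rw [← Finset.add_sum_erase _ _ hk]
  have h1 : v (P.coeff P.natTrailingDegree • t ^ P.natTrailingDegree) = v t ^ P.natTrailingDegree := by
    rw [Algebra.smul_def, map_mul, hC, one_mul, map_pow]
    exact trailingCoeff_nonzero_iff_nonzero.2 hP
  have h2 : v (∑ i ∈ (Finset.range (P.natDegree + 1)).erase P.natTrailingDegree, P.coeff i • t ^ i)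
      < v t ^ P.natTrailingDegree := by
    apply Valuation.map_sum_lt
    · exact pow_ne_zero _ hvt.ne'
    · intro i hi
      rw [Finset.mem_erase] at hi
      by_cases hc : P.coeff i = 0
      · rw [hc, zero_smul, map_zero]
        exact pow_pos hvt _
      · rw [Algebra.smul_def, map_mul, hC _ hc, one_mul, map_pow]
        have hlt : P.natTrailingDegree < i :=
          lt_of_le_of_ne (natTrailingDegree_le_of_ne_zero hc) (Ne.symm hi.1)
        exact pow_lt_pow_right_of_lt_one₀ hvt ht hlt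
  rw [← h1] at h2
  rw [Valuation.map_add_eq_of_lt_left _ h2, h1]

theorem Place.ord_sum_of_lt (v : Place 𝕜 E) {ι : Type*} [DecidableEq ι] {s : Finset ι} {f : ι → E} {i0 : ι}
    (hi0 : i0 ∈ s) (h0 : f i0 ≠ 0) (h : ∀ i ∈ s, i ≠ i0 → v.ord (f i0) < v.ord (f i)) :
    v.ord (∑ i ∈ s, f i) = v.ord (f i0) := by
  rw [← Finset.add_sum_erase s f hi0]
  apply AddValuation.map_add_eq_of_lt_left
  apply AddValuation.map_lt_sum
  · rwa [AddValuation.ne_top_iff]
  · intro i hi
    rw [Finset.mem_erase] at hi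
    exact h i hi.2 hi.1

theorem Place.ord_aeval_of_pos (v : Place 𝕜 E) {t : E} (ht0 : t ≠ 0) (ht : 0 < v.pord t) {P : 𝕜[X]}
    (hP : P ≠ 0) : v.ord (aeval t P) = ((P.natTrailingDegree * v.pord t : ℤ) : WithTop ℤ) := by
  classical
  have hterm : ∀ i, P.coeff i ≠ 0 → v.ord (P.coeff i • t ^ i) = ((i * v.pord t : ℤ) : WithTop ℤ) := by
    intro i hi
    rw [Algebra.smul_def, AddValuation.map_mul, v.ord_algebraMap_of_ne hi, zero_add,
      v.ord_eq_pord (pow_ne_zero _ ht0), v.pord_pow ht0]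
  have htc : P.coeff P.natTrailingDegree ≠ 0 := trailingCoeff_nonzero_iff_nonzero.2 hP
  rw [aeval_eq_sum_range, v.ord_sum_of_lt (i0 := P.natTrailingDegree), hterm _ htc]
  · rw [Finset.mem_range]
    exact Nat.lt_succ_of_le P.natTrailingDegree_le_natDegree
  · exact smul_ne_zero htc (pow_ne_zero _ ht0)
  · intro i hi hne
    rw [hterm _ htc]
    by_cases hc : P.coeff i = 0
    · rw [hc, zero_smul, AddValuation.map_zero]; exact WithTop.coe_lt_top _
    · rw [hterm i hc, WithTop.coe_lt_coe]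
      have hlt : P.natTrailingDegree < i :=
        lt_of_le_of_ne (natTrailingDegree_le_of_ne_zero hc) (Ne.symm hne)
      have : (P.natTrailingDegree : ℤ) < i := by exact_mod_cast hlt
      nlinarith

/-- Construction of places from order functions. -/
theorem places_exists_of_fun (o : E → ℤ) (hmul : ∀ x y, x ≠ 0 → y ≠ 0 → o (x * y) = o x + o y)
    (hadd : ∀ x y, x ≠ 0 → y ≠ 0 → x + y ≠ 0 → min (o x) (o y) ≤ o (x + y))
    (hC : ∀ c : 𝕜, c ≠ 0 → 0 ≤ o (algebraMap 𝕜 E c)) (hz : ∃ z, z ≠ 0 ∧ o z = 1) :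
    ∃ v : Place 𝕜 E, ∀ f, f ≠ 0 → v.ord f = (o f : WithTop ℤ) := by
  classical
  have h1 : o 1 = 0 := by
    have := hmul 1 1 one_ne_zero one_ne_zero
    rw [mul_one] at this
    omega
  let g : E → WithTop ℤ := fun x => if x = 0 then ⊤ else (o x : WithTop ℤ)
  have g0 : g 0 = ⊤ := if_pos rfl
  have g1 : g 1 = 0 := by
    simp only [g, one_ne_zero, if_false, h1]; rfl
  have gn : ∀ x, x ≠ 0 → g x = (o x : WithTop ℤ) := fun x hx => if_neg hx
  have gadd : ∀ x y, min (g x) (g y) ≤ g (x + y) := by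
    intro x y
    rcases eq_or_ne x 0 with rfl | hx
    · rw [zero_add]; exact min_le_right _ _
    rcases eq_or_ne y 0 with rfl | hy
    · rw [add_zero]; exact min_le_left _ _
    rcases eq_or_ne (x + y) 0 with hxy | hxy
    · rw [hxy, g0]; exact le_top
    · rw [gn x hx, gn y hy, gn _ hxy]
      have := hadd x y hx hy hxy
      rw [← WithTop.coe_min]
      exact WithTop.coe_le_coe.2 this
  have gmul : ∀ x y, g (x * y) = g x + g y := by
    intro x y
    rcases eq_or_ne x 0 with rfl | hx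
    · rw [zero_mul, g0, top_add]
    rcases eq_or_ne y 0 with rfl | hy
    · rw [mul_zero, g0, add_top]
    rw [gn x hx, gn y hy, gn _ (mul_ne_zero hx hy), hmul x y hx hy]; rfl
  obtain ⟨z, hz0, hz1⟩ := hz
  refine ⟨⟨AddValuation.of g g0 g1 gadd gmul, ⟨z, ?_⟩, ?_⟩, ?_⟩
  · rw [AddValuation.of_apply, gn z hz0, hz1]; rfl
  · intro c
    rw [AddValuation.of_apply]
    rcases eq_or_ne c 0 with rfl | hc
    · rw [map_zero, g0]; exact le_top
    · rw [gn _ (by simpa using hc)]
      exact WithTop.coe_le_coe.2 (hC c hc)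
  · intro f hf
    exact gn f hf

end Aux

variable {𝕜 E : Type} [Field 𝕜] [IsAlgClosed 𝕜] [Field E] [Algebra 𝕜 E] [IsCurveField 𝕜 E]

theorem transcendental_of {f : E} (h : ∀ c : 𝕜, f ≠ algebraMap 𝕜 E c) : Transcendental 𝕜 f := by
  intro hf
  have hi : IsIntegral 𝕜 f := hf.isIntegral
  have h1 : (minpoly 𝕜 f).degree = 1 :=
    IsAlgClosed.degree_eq_one_of_irreducible 𝕜 (minpoly.irreducible hi)
  obtain ⟨c, hc⟩ := minpoly.mem_range_of_degree_eq_one 𝕜 f h1
  exact h c hc.symm

open IntermediateField in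
/-- A function field of a curve is essentially of finite type over `𝕜`. -/
theorem places_essFiniteType (𝕜 E : Type) [Field 𝕜] [IsAlgClosed 𝕜] [Field E] [Algebra 𝕜 E] [IsCurveField 𝕜 E] :
    Algebra.EssFiniteType 𝕜 E := by
  obtain ⟨s, hs, hfin⟩ := IsCurveField.exists_gen (𝕜 := 𝕜) (E := E)
  have h1 : Algebra.EssFiniteType 𝕜 (IntermediateField.adjoin 𝕜 {s}) := by
    rw [IntermediateField.essFiniteType_iff]
    exact ⟨{s}, by simp⟩
  exact Algebra.EssFiniteType.comp 𝕜 (IntermediateField.adjoin 𝕜 {s}) E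

open IntermediateField in
/-- A function field of a curve has transcendence degree at most one. -/
theorem places_trdeg_le (𝕜 E : Type) [Field 𝕜] [IsAlgClosed 𝕜] [Field E] [Algebra 𝕜 E] [IsCurveField 𝕜 E] :
    Algebra.trdeg 𝕜 E ≤ Cardinal.mk Unit := by
  obtain ⟨s, hs, hfin⟩ := IsCurveField.exists_gen (𝕜 := 𝕜) (E := E)
  have hi : AlgebraicIndependent 𝕜 (fun _ : Unit => s) := by
    rw [algebraicIndependent_unique_type_iff]; exact hs
  have hb : IsTranscendenceBasis 𝕜 (fun _ : Unit => s) := by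
    rw [hi.isTranscendenceBasis_iff_isAlgebraic]
    have := Algebra.IsAlgebraic.of_finite (IntermediateField.adjoin 𝕜 {s}) E
    rw [isAlgebraic_adjoin_iff_top] at this
    have hr : Set.range (fun _ : Unit => s) = {s} := Set.range_const
    rw [hr]
    exact this
  rw [hb.cardinalMk_eq_trdeg]

open IntermediateField in
/-- If the transcendence degree is at most one, a transcendental element generates a subfield over
which everything is algebraic. -/
theorem places_isAlgebraic_adjoin (k : Type) [Field k] [Algebra 𝕜 k]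
    (htr : Algebra.trdeg 𝕜 k ≤ Cardinal.mk Unit) {t : k} (ht : Transcendental 𝕜 t) :
    Algebra.IsAlgebraic (IntermediateField.adjoin 𝕜 {t}) k := by
  have hi' : AlgebraicIndependent 𝕜 (fun _ : Unit => t) := by
    rw [algebraicIndependent_unique_type_iff]; exact ht
  have hb' := hi'.isTranscendenceBasis_of_trdeg_le_of_finite htr
  have h4 := hb'.isAlgebraic_field
  have hr : Set.range (fun _ : Unit => t) = {t} := Set.range_const
  rw [hr] at h4
  exact h4

open IntermediateField in
theorem finite_adjoin {t : E} (ht : Transcendental 𝕜 t) :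
    Module.Finite (IntermediateField.adjoin 𝕜 {t}) E := by
  have h2 : Algebra.EssFiniteType 𝕜 E := places_essFiniteType 𝕜 E
  have h3 : Algebra.EssFiniteType (IntermediateField.adjoin 𝕜 {t}) E :=
    Algebra.EssFiniteType.of_comp 𝕜 (IntermediateField.adjoin 𝕜 {t}) E
  have h4 := places_isAlgebraic_adjoin E (places_trdeg_le 𝕜 E) ht
  exact Algebra.finite_of_essFiniteType_of_isAlgebraic

theorem isCurveField_sub (k : Type) [Field k] [Algebra 𝕜 k] [Algebra k E] [IsScalarTower 𝕜 k E]
    [Module.Finite k E] : IsCurveField 𝕜 k := by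
  have hex : ∃ t : k, Transcendental 𝕜 t := by
    by_contra hcon
    have hcon' : ∀ t : k, IsAlgebraic 𝕜 t := by
      intro t
      by_contra h
      exact hcon ⟨t, h⟩
    have h1 : Algebra.IsAlgebraic 𝕜 k := ⟨hcon'⟩
    have h2 : Algebra.IsAlgebraic k E := Algebra.IsAlgebraic.of_finite k E
    have h3 : Algebra.IsAlgebraic 𝕜 E := Algebra.IsAlgebraic.trans 𝕜 k E
    obtain ⟨s, hs, -⟩ := IsCurveField.exists_gen (𝕜 := 𝕜) (E := E)
    exact hs (h3.isAlgebraic s)
  obtain ⟨t, ht⟩ := hex
  refine ⟨t, ht, ?_⟩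
  have htr : Algebra.trdeg 𝕜 k ≤ Cardinal.mk Unit := by
    refine le_trans ?_ (places_trdeg_le 𝕜 E)
    exact trdeg_le_of_injective (IsScalarTower.toAlgHom 𝕜 k E) (algebraMap k E).injective
  have h1 := places_isAlgebraic_adjoin k htr ht
  have h2 : Algebra.IsAlgebraic k E := Algebra.IsAlgebraic.of_finite k E
  have h3 : Algebra.IsAlgebraic (IntermediateField.adjoin 𝕜 {t}) E :=
    Algebra.IsAlgebraic.trans (IntermediateField.adjoin 𝕜 {t}) k E
  have h4 : Algebra.EssFiniteType 𝕜 E := places_essFiniteType 𝕜 E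
  have h5 : Algebra.EssFiniteType (IntermediateField.adjoin 𝕜 {t}) E :=
    Algebra.EssFiniteType.of_comp 𝕜 (IntermediateField.adjoin 𝕜 {t}) E
  have h6 : Module.Finite (IntermediateField.adjoin 𝕜 {t}) E :=
    Algebra.finite_of_essFiniteType_of_isAlgebraic
  exact Module.Finite.of_injective (IsScalarTower.toAlgHom (IntermediateField.adjoin 𝕜 {t}) k E).toLinearMap
    (algebraMap k E).injective

/-- The places where a transcendental function vanishes are finite in number. -/
theorem places_finite_zeros {f : E} (hf : Transcendental 𝕜 f) :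
    {v : Place 𝕜 E | 0 < v.pord f}.Finite := by
  classical
  by_contra hinf
  have hfin : Module.Finite (IntermediateField.adjoin 𝕜 {f}) E := finite_adjoin hf
  obtain ⟨T, hT, hcard⟩ := Set.Infinite.exists_subset_card_eq (s := {v : Place 𝕜 E | 0 < v.pord f}) hinf
    (Module.finrank (IntermediateField.adjoin 𝕜 {f}) E + 1)
  have hf0 : f ≠ 0 := by
    rintro rfl
    exact hf (isAlgebraic_zero)
  let e : Fin (Module.finrank (IntermediateField.adjoin 𝕜 {f}) E + 1) ≃ T :=
    (T.equivFinOfCardEq hcard).symm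
  have hx : ∀ i, ∃ x : E, x ≠ 0 ∧ (e i : Place 𝕜 E).pord x = 0 ∧
      ∀ u ∈ T.erase (e i : Place 𝕜 E), 0 < u.pord x := fun i =>
    places_approx' (e i : Place 𝕜 E) (T.erase (e i)) (Finset.notMem_erase _ _)
  choose x hx0 hx1 hx2 using hx
  obtain ⟨P, ⟨i1, hi1⟩, hsum⟩ := places_exists_rel (𝕜 := 𝕜) (t := f) x
  have hPi1 : P i1 ≠ 0 := by
    intro h; rw [h, map_zero] at hi1; exact hi1 rfl
  obtain ⟨i0, hi0, hmin⟩ := Finset.exists_min_image (Finset.univ.filter fun i => P i ≠ 0)
    (fun i => (P i).natTrailingDegree) ⟨i1, by simpa using hPi1⟩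
  have hPi0 : P i0 ≠ 0 := by simpa using hi0
  set v : Place 𝕜 E := (e i0).1 with hv
  have hvf : 0 < v.pord f := hT (e i0).2
  have hae : ∀ Q : 𝕜[X], Q ≠ 0 → aeval f Q ≠ 0 := by
    intro Q hQ h
    exact hf ⟨Q, hQ, h⟩
  have hord : ∀ i, P i ≠ 0 → v.ord (aeval f (P i) * x i) =
      (((P i).natTrailingDegree * v.pord f + v.pord (x i) : ℤ) : WithTop ℤ) := by
    intro i hi
    rw [AddValuation.map_mul, v.ord_aeval_of_pos hf0 hvf hi, v.ord_eq_pord (hx0 i)]
    rfl
  have hmain : v.ord (∑ i, aeval f (P i) * x i) = v.ord (aeval f (P i0) * x i0) := by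
    apply v.ord_sum_of_lt (Finset.mem_univ i0) (mul_ne_zero (hae _ hPi0) (hx0 i0))
    intro i _ hne
    by_cases hPi : P i = 0
    · rw [hPi, map_zero, zero_mul, AddValuation.map_zero, hord i0 hPi0]
      exact WithTop.coe_lt_top _
    · rw [hord i0 hPi0, hord i hPi, WithTop.coe_lt_coe]
      have h1 : v.pord (x i0) = 0 := hx1 i0
      have h2 : 0 < v.pord (x i) := by
        apply hx2 i
        rw [Finset.mem_erase]
        refine ⟨?_, (e i0).2⟩
        intro h
        apply hne
        apply e.injective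
        exact Subtype.ext h.symm
      have h3 := hmin i (by simpa using hPi)
      have h4 : ((P i0).natTrailingDegree : ℤ) ≤ (P i).natTrailingDegree := by exact_mod_cast h3
      nlinarith
  rw [hsum, AddValuation.map_zero, hord i0 hPi0] at hmain
  exact WithTop.top_ne_coe hmain

theorem place_eq {v w : Place 𝕜 E} (h : ∀ f, 0 ≤ v.ord f → 0 ≤ w.ord f) : v = w :=
  Place.eq_of_forall_nonneg h

theorem finite_ord_ne {f : E} (hf : f ≠ 0) : {v : Place 𝕜 E | v.ord f ≠ 0}.Finite := by
  by_cases hc : ∃ c : 𝕜, f = algebraMap 𝕜 E c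
  · obtain ⟨c, rfl⟩ := hc
    have hc0 : c ≠ 0 := by rintro rfl; simp at hf
    convert Set.finite_empty
    ext v
    simp [v.ord_algebraMap_of_ne hc0]
  · push Not at hc
    have h1 := transcendental_of hc
    have h2 : Transcendental 𝕜 f⁻¹ := by
      apply transcendental_of
      intro c h
      apply hc c⁻¹
      rw [map_inv₀, ← h, inv_inv]
    refine ((places_finite_zeros h1).union (places_finite_zeros h2)).subset ?_
    intro v hv
    simp only [Set.mem_ofPred_eq, Set.mem_union] at hv ⊢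
    have h3 : v.pord f ≠ 0 := by
      intro h
      apply hv
      rw [v.ord_eq_pord hf, h]; rfl
    rw [v.pord_inv hf]
    omega

theorem exists_const (v : Place 𝕜 E) {f : E} (h : 0 ≤ v.ord f) :
    ∃ c : 𝕜, 0 < v.ord (f - algebraMap 𝕜 E c) := by
  by_contra hcon
  push Not at hcon
  have h0 : ∀ c : 𝕜, v.ord (f - algebraMap 𝕜 E c) = 0 := by
    intro c
    apply le_antisymm (hcon c)
    exact AddValuation.map_le_sub v.ord h (v.const c)
  have hf : Transcendental 𝕜 f := by
    apply transcendental_of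
    intro c hc
    have := h0 c
    rw [hc, sub_self, AddValuation.map_zero] at this
    exact WithTop.top_ne_zero this
  have hfin : Module.Finite (IntermediateField.adjoin 𝕜 {f}) E := finite_adjoin hf
  -- the valuation is trivial on `𝕜[f]`
  let M : Submonoid 𝕜[X] :=
    { carrier := {Q | v.ord (aeval f Q) = 0}
      one_mem' := by simp
      mul_mem' := by
        intro a b ha hb
        have ha' : v.ord (aeval f a) = 0 := ha
        have hb' : v.ord (aeval f b) = 0 := hb
        change v.ord (aeval f (a * b)) = 0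
        rw [map_mul, AddValuation.map_mul, ha', hb', add_zero] }
  have hM : ∀ P : 𝕜[X], P ≠ 0 → v.ord (aeval f P) = 0 := by
    intro P hP
    have hs := IsAlgClosed.splits P
    change P ∈ M
    rw [hs.eq_prod_roots]
    refine M.mul_mem ?_ (Submonoid.multiset_prod_mem _ _ ?_)
    · change v.ord (aeval f (C P.leadingCoeff)) = 0
      rw [aeval_C]
      exact v.ord_algebraMap_of_ne (leadingCoeff_ne_zero.2 hP)
    · intro Q hQ
      rw [Multiset.mem_map] at hQ
      obtain ⟨r, -, rfl⟩ := hQ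
      change v.ord (aeval f (X - C r)) = 0
      rw [map_sub, aeval_X, aeval_C]
      exact h0 r
  obtain ⟨z, hz⟩ := v.exists_unif
  have hz0 : z ≠ 0 := by rintro rfl; simp at hz
  have hz1 : v.pord z = 1 := by rw [v.pord_eq_iff hz0]; exact hz
  classical
  obtain ⟨P, ⟨i1, hi1⟩, hsum⟩ := places_exists_rel (𝕜 := 𝕜) (t := f) (fun i => z ^ (i : ℕ))
  have hPi1 : P i1 ≠ 0 := by
    intro h; rw [h, map_zero] at hi1; exact hi1 rfl
  obtain ⟨i0, hi0, hmin⟩ := Finset.exists_min_image (Finset.univ.filter fun i => P i ≠ 0)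
    (fun i => i) ⟨i1, by simpa using hPi1⟩
  have hPi0 : P i0 ≠ 0 := by simpa using hi0
  have hae : ∀ Q : 𝕜[X], Q ≠ 0 → aeval f Q ≠ 0 := by
    intro Q hQ h
    exact hf ⟨Q, hQ, h⟩
  have hord : ∀ i, P i ≠ 0 → v.ord (aeval f (P i) * z ^ (i : ℕ)) = (((i : ℕ) : ℤ) : WithTop ℤ) := by
    intro i hi
    rw [AddValuation.map_mul, hM _ hi, v.ord_eq_pord (pow_ne_zero _ hz0), v.pord_pow hz0, hz1, mul_one, zero_add]
  have hmain : v.ord (∑ i, aeval f (P i) * z ^ (i : ℕ)) = v.ord (aeval f (P i0) * z ^ (i0 : ℕ)) := by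
    apply v.ord_sum_of_lt (f := fun i : Fin _ => aeval f (P i) * z ^ (i : ℕ)) (Finset.mem_univ i0)
      (mul_ne_zero (hae _ hPi0) (pow_ne_zero _ hz0))
    intro i _ hne
    by_cases hPi : P i = 0
    · rw [hPi, map_zero, zero_mul, AddValuation.map_zero, hord i0 hPi0]
      exact WithTop.coe_lt_top _
    · rw [hord i0 hPi0, hord i hPi, WithTop.coe_lt_coe]
      have h3 := hmin i (by simpa using hPi)
      have h4 : i0 < i := lt_of_le_of_ne h3 (Ne.symm hne)
      exact_mod_cast h4
  rw [hsum, AddValuation.map_zero, hord i0 hPi0] at hmain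
  exact WithTop.top_ne_coe hmain

theorem exists_place_of_valuationSubring (W : ValuationSubring E) (hW : W ≠ ⊤)
    (hC : ∀ c : 𝕜, algebraMap 𝕜 E c ∈ W) : ∃ v : Place 𝕜 E, ∀ f, f ∈ W ↔ 0 ≤ v.ord f := by
  classical
  have hle : ∀ x, W.valuation x ≤ 1 ↔ x ∈ W := fun x => W.valuation_le_one_iff x
  have hC1 : ∀ c : 𝕜, c ≠ 0 → W.valuation (algebraMap 𝕜 E c) = 1 := by
    intro c hc
    have h1 := (hle _).2 (hC c)
    have h2 := (hle _).2 (hC c⁻¹)
    rw [map_inv₀, map_inv₀] at h2
    have h3 : W.valuation (algebraMap 𝕜 E c) ≠ 0 := by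
      rw [Valuation.ne_zero_iff]; simpa using hc
    apply le_antisymm h1
    exact (inv_le_one₀ (zero_lt_iff.2 h3)).1 h2
  obtain ⟨x, hx⟩ : ∃ x, x ∉ W := by
    by_contra hcon
    push Not at hcon
    apply hW
    ext x
    exact ⟨fun _ => trivial, fun _ => hcon x⟩
  have hx0 : x ≠ 0 := by rintro rfl; exact hx W.zero_mem
  set s := x⁻¹ with hs
  have hs0 : s ≠ 0 := inv_ne_zero hx0
  have hs1 : W.valuation s < 1 := by
    rw [hs, map_inv₀]
    have : 1 < W.valuation x := by
      by_contra h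
      exact hx ((hle x).1 (not_lt.1 h))
    exact inv_lt_one_of_one_lt₀ this
  have hst : Transcendental 𝕜 s := by
    apply transcendental_of
    intro c hc
    apply hx
    have : x = algebraMap 𝕜 E c⁻¹ := by rw [map_inv₀, ← hc, hs, inv_inv]
    rw [this]; exact hC _
  have hfin : Module.Finite (IntermediateField.adjoin 𝕜 {s}) E := finite_adjoin hst
  have hs2 : 0 < W.valuation s := zero_lt_iff.2 ((Valuation.ne_zero_iff _).2 hs0)
  have hinj : ∀ a b : ℤ, W.valuation s ^ a = W.valuation s ^ b → a = b := by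
    intro a b hab
    exact (zpow_right_strictAnti₀ hs2 hs1).injective hab
  set n := Module.finrank (IntermediateField.adjoin 𝕜 {s}) E with hn
  have hae : ∀ Q : 𝕜[X], Q ≠ 0 → aeval s Q ≠ 0 := by
    intro Q hQ h
    exact hst ⟨Q, hQ, h⟩
  -- the value group is, up to torsion, generated by the value of `s`
  have key : ∀ y : E, y ≠ 0 → ∃ m : ℤ, W.valuation y ^ (n.factorial) = W.valuation s ^ m := by
    intro y hy
    obtain ⟨P, ⟨i1, hi1⟩, hsum⟩ := places_exists_rel (𝕜 := 𝕜) (t := s) (fun i => y ^ (i : ℕ))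
    have hy' : W.valuation y ≠ 0 := (Valuation.ne_zero_iff _).2 hy
    obtain ⟨i0, -, hmax⟩ := Finset.exists_max_image Finset.univ
      (fun i => W.valuation (aeval s (P i) * y ^ (i : ℕ))) ⟨i1, Finset.mem_univ _⟩
    have hpos : 0 < W.valuation (aeval s (P i0) * y ^ (i0 : ℕ)) := by
      refine lt_of_lt_of_le ?_ (hmax i1 (Finset.mem_univ _))
      exact zero_lt_iff.2 ((Valuation.ne_zero_iff _).2 (mul_ne_zero hi1 (pow_ne_zero _ hy)))
    have hex : ∃ i, i ≠ i0 ∧ W.valuation (aeval s (P i) * y ^ (i : ℕ)) =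
        W.valuation (aeval s (P i0) * y ^ (i0 : ℕ)) := by
      by_contra hcon
      push Not at hcon
      have h1 : W.valuation (∑ i ∈ Finset.univ.erase i0, aeval s (P i) * y ^ (i : ℕ)) <
          W.valuation (aeval s (P i0) * y ^ (i0 : ℕ)) := by
        apply Valuation.map_sum_lt _ hpos.ne'
        intro i hi
        exact lt_of_le_of_ne (hmax i (Finset.mem_univ _)) (hcon i (Finset.ne_of_mem_erase hi))
      have h2 := Valuation.map_add_eq_of_lt_left _ h1
      rw [Finset.add_sum_erase Finset.univ (fun i => aeval s (P i) * y ^ (i : ℕ)) (Finset.mem_univ i0),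
        hsum, map_zero] at h2
      exact hpos.ne h2
    obtain ⟨i, hii0, hieq⟩ := hex
    have hPi0 : P i0 ≠ 0 := by
      intro h; rw [h, map_zero, zero_mul, map_zero] at hpos; exact lt_irrefl _ hpos
    have hPi : P i ≠ 0 := by
      intro h; rw [h, map_zero, zero_mul, map_zero] at hieq; exact hpos.ne hieq
    -- symmetric statement
    have sym : ∀ i j : Fin (n + 1), i < j → P i ≠ 0 → P j ≠ 0 →
        W.valuation (aeval s (P i) * y ^ (i : ℕ)) = W.valuation (aeval s (P j) * y ^ (j : ℕ)) →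
        ∃ m : ℤ, W.valuation y ^ (n.factorial) = W.valuation s ^ m := by
      intro i j hij hi hj heq
      have hij' : (i : ℕ) < j := hij
      rw [map_mul, map_mul, map_pow, map_pow, places_val_aeval _ hC1 hs0 hs1 hi,
        places_val_aeval _ hC1 hs0 hs1 hj] at heq
      set a := (P i).natTrailingDegree
      set b := (P j).natTrailingDegree
      have hd : (j : ℕ) = i + (j - i : ℕ) := by omega
      set d : ℕ := (j : ℕ) - i with hdd
      have hd0 : 0 < d := by omega
      have hdn : d ≤ n := by have := j.2; omega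
      have h1 : W.valuation y ^ d = W.valuation s ^ ((a : ℤ) - b) := by
        rw [zpow_sub₀ hs2.ne', zpow_natCast, zpow_natCast, eq_div_iff (pow_ne_zero _ hs2.ne')]
        rw [hd, pow_add] at heq
        have h2 : W.valuation y ^ (i : ℕ) * (W.valuation y ^ d * W.valuation s ^ b) =
            W.valuation y ^ (i : ℕ) * W.valuation s ^ a := by
          rw [mul_comm (W.valuation y ^ (i : ℕ)) (W.valuation s ^ a), heq]
          ac_rfl
        exact mul_left_cancel₀ (pow_ne_zero _ hy') h2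
      obtain ⟨e, he⟩ : d ∣ n.factorial := Nat.dvd_factorial hd0 hdn
      refine ⟨((a : ℤ) - b) * e, ?_⟩
      rw [he, pow_mul, h1, zpow_mul, zpow_natCast]
    rcases lt_or_gt_of_ne hii0 with h | h
    · exact sym i i0 h hPi hPi0 hieq
    · exact sym i0 i h hPi0 hPi hieq.symm
  have hk : ∀ y : E, ∃ m : ℤ, y ≠ 0 → W.valuation y ^ (n.factorial) = W.valuation s ^ m := by
    intro y
    by_cases hy : y = 0
    · exact ⟨0, fun h => absurd hy h⟩
    · obtain ⟨m, hm⟩ := key y hy
      exact ⟨m, fun _ => hm⟩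
  choose k hk using hk
  have hN : 0 < n.factorial := Nat.factorial_pos n
  have kmul : ∀ x y, x ≠ 0 → y ≠ 0 → k (x * y) = k x + k y := by
    intro x y hx hy
    apply hinj
    rw [← hk _ (mul_ne_zero hx hy), zpow_add₀ hs2.ne', ← hk x hx, ← hk y hy, map_mul, mul_pow]
  have kone : k 1 = 0 := by
    have := kmul 1 1 one_ne_zero one_ne_zero
    rw [mul_one] at this
    omega
  have kinv : ∀ x, x ≠ 0 → k x⁻¹ = - k x := by
    intro x hx
    have := kmul x x⁻¹ hx (inv_ne_zero hx)
    rw [mul_inv_cancel₀ hx, kone] at this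
    omega
  have kpow : ∀ x, x ≠ 0 → ∀ m : ℕ, k (x ^ m) = m * k x := by
    intro x hx m
    induction m with
    | zero => simp [kone]
    | succ m ih =>
      rw [pow_succ, kmul _ _ (pow_ne_zero _ hx) hx, ih]; push_cast; ring
  have kzpow : ∀ x, x ≠ 0 → ∀ m : ℤ, k (x ^ m) = m * k x := by
    intro x hx m
    obtain ⟨m, rfl | rfl⟩ := m.eq_nat_or_neg
    · rw [zpow_natCast, kpow x hx]
    · rw [zpow_neg, zpow_natCast, kinv _ (pow_ne_zero _ hx), kpow x hx]; ring
  have kle : ∀ x y, x ≠ 0 → y ≠ 0 → (k x ≤ k y ↔ W.valuation y ≤ W.valuation x) := by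
    intro x y hx hy
    rw [← (zpow_right_strictAnti₀ hs2 hs1).le_iff_ge, ← hk x hx, ← hk y hy]
    exact pow_le_pow_iff_left₀ zero_le zero_le hN.ne'
  have kadd : ∀ x y, x ≠ 0 → y ≠ 0 → x + y ≠ 0 → min (k x) (k y) ≤ k (x + y) := by
    intro x y hx hy hxy
    rcases W.valuation.map_add' x y with h | h
    · exact le_trans (min_le_left _ _) ((kle x _ hx hxy).2 h)
    · exact le_trans (min_le_right _ _) ((kle y _ hy hxy).2 h)
  have ks : k s = n.factorial := by
    apply hinj
    rw [← hk s hs0, zpow_natCast]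
  -- the image of `k` is generated by its least positive element
  have hp : ∃ m : ℕ, 0 < m ∧ ∃ y : E, y ≠ 0 ∧ k y = m := ⟨n.factorial, hN, s, hs0, ks⟩
  set d := Nat.find hp with hd
  obtain ⟨hd0, z, hz0, hkz⟩ := Nat.find_spec hp
  rw [← hd] at hd0 hkz
  have hdZ : (0 : ℤ) < d := by exact_mod_cast hd0
  have hdvd : ∀ y, y ≠ 0 → (d : ℤ) ∣ k y := by
    intro y hy
    by_contra hnd
    have h1 : 0 < k y % d := by
      rcases lt_or_eq_of_le (Int.emod_nonneg (k y) hdZ.ne') with h | h
      · exact h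
      · exact absurd (Int.dvd_of_emod_eq_zero h.symm) hnd
    have h2 : k y % d < d := Int.emod_lt_of_pos _ hdZ
    have h3 : k (y * z ^ (- (k y / d))) = k y % d := by
      rw [kmul _ _ hy (zpow_ne_zero _ hz0), kzpow _ hz0, hkz]
      have := Int.emod_add_mul_ediv (k y) d
      linarith
    have h4 := Nat.find_min hp (m := (k y % d).toNat) (by rw [← hd]; omega)
    apply h4
    refine ⟨by omega, y * z ^ (- (k y / d)), mul_ne_zero hy (zpow_ne_zero _ hz0), ?_⟩
    rw [h3]; omega
  have hdk : ∀ y, y ≠ 0 → (k y / d) * d = k y := fun y hy => Int.ediv_mul_cancel (hdvd y hy)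
  obtain ⟨v, hv⟩ := places_exists_of_fun (fun y => k y / d) (by
      intro x y hx hy
      have h1 := hdk x hx
      have h2 := hdk y hy
      have h4 : (k (x * y) / d) * d = (k x / d + k y / d) * d := by
        rw [add_mul, h1, h2, hdk _ (mul_ne_zero hx hy), kmul x y hx hy]
      exact mul_right_cancel₀ hdZ.ne' h4) (by
      intro x y hx hy hxy
      have h1 := kadd x y hx hy hxy
      rcases min_le_iff.1 h1 with h | h
      · exact le_trans (min_le_left _ _) (Int.ediv_le_ediv hdZ h)
      · exact le_trans (min_le_right _ _) (Int.ediv_le_ediv hdZ h)) (by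
      intro c hc
      have h0 : algebraMap 𝕜 E c ≠ 0 := by simpa using hc
      have h1 : 0 ≤ k (algebraMap 𝕜 E c) := by
        rw [← kone, kle _ _ one_ne_zero h0, map_one, hle]; exact hC c
      exact Int.ediv_nonneg h1 hdZ.le) ⟨z, hz0, by
      simp only [hkz]; exact Int.ediv_self hdZ.ne'⟩
  refine ⟨v, fun f => ?_⟩
  rcases eq_or_ne f 0 with rfl | hf
  · simp [W.zero_mem]
  · rw [hv f hf, ← hle, ← map_one W.valuation, ← kle _ _ one_ne_zero hf, kone]
    have h1 := hdk f hf
    constructor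
    · intro h
      exact WithTop.coe_le_coe.2 (Int.ediv_nonneg h hdZ.le)
    · intro h
      have h2 : 0 ≤ k f / d := WithTop.coe_le_coe.1 h
      rw [← h1]; positivity

theorem exists_const_of_nonneg {f : E} (h : ∀ v : Place 𝕜 E, 0 ≤ v.ord f) :
    ∃ c : 𝕜, f = algebraMap 𝕜 E c := by
  by_contra hcon
  push Not at hcon
  have hf : Transcendental 𝕜 f := transcendental_of hcon
  have hf0 : f ≠ 0 := by
    rintro rfl
    exact hf isAlgebraic_zero
  set g := f⁻¹ with hg
  have hg0 : g ≠ 0 := inv_ne_zero hf0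
  have hgt : Transcendental 𝕜 g := by
    apply transcendental_of
    intro c hc
    apply hcon c⁻¹
    rw [map_inv₀, ← hc, hg, inv_inv]
  let A : Subring E := (Algebra.adjoin 𝕜 {g}).toSubring
  have hgA : g ∈ A := Algebra.subset_adjoin (Set.mem_singleton g)
  let I : Ideal A := Ideal.span {(⟨g, hgA⟩ : A)}
  have hI : I ≠ ⊤ := by
    intro hI
    rw [Ideal.span_singleton_eq_top] at hI
    obtain ⟨u, hu⟩ := hI
    have h1 : ((u⁻¹ : Aˣ) : A).1 * g = 1 := by
      have : ((u⁻¹ : Aˣ) : A) * (u : A) = 1 := Units.inv_mul u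
      rw [hu] at this
      exact congrArg Subtype.val this
    have h2 : ((u⁻¹ : Aˣ) : A).1 ∈ Algebra.adjoin 𝕜 {g} := ((u⁻¹ : Aˣ) : A).2
    rw [Algebra.adjoin_singleton_eq_range_aeval] at h2
    obtain ⟨Q, hQ⟩ := h2
    have hQ' : aeval g Q = ((u⁻¹ : Aˣ) : A).1 := hQ
    have h3 : aeval g (Q * X - 1) = 0 := by
      rw [map_sub, map_mul, aeval_X, map_one, hQ', h1, sub_self]
    have h4 : Q * X - 1 ≠ 0 := by
      intro h
      have := congrArg (fun P => Polynomial.coeff P 0) h
      simp at this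
    exact hgt ⟨_, h4, h3⟩
  obtain ⟨W, hAW, hIW⟩ := I.image_subset_nonunits_valuationSubring hI
  have hgW : g ∈ W.nonunits := by
    apply hIW
    exact ⟨⟨g, hgA⟩, Ideal.subset_span rfl, rfl⟩
  have hfW : f ∉ W := by
    intro hfW
    have h1 : W.valuation g < 1 := by
      rwa [ValuationSubring.mem_nonunits_iff] at hgW
    have h2 : W.valuation f ≤ 1 := (W.valuation_le_one_iff f).2 hfW
    have h3 : W.valuation (f * g) < 1 := by
      rw [map_mul]
      calc W.valuation f * W.valuation g ≤ 1 * W.valuation g := by gcongr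
        _ = W.valuation g := one_mul _
        _ < 1 := h1
    rw [hg, mul_inv_cancel₀ hf0, map_one] at h3
    exact lt_irrefl _ h3
  obtain ⟨v, hv⟩ := exists_place_of_valuationSubring W (by rintro rfl; exact hfW trivial) (by
    intro c
    apply hAW
    exact (Algebra.adjoin 𝕜 {g}).algebraMap_mem c)
  exact hfW ((hv f).2 (h v))

end MP7Z
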