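import Pool.Agent.Lib.MP_7f581e_Z.Crv.Places

/-!
# Strong approximation
-/

namespace MP7Z

namespace Approx

open scoped IntermediateField.algebraAdjoinAdjoin

section Ring

variable (𝕜 : Type) {E : Type} [Field 𝕜] [IsAlgClosed 𝕜] [Field E] [Algebra 𝕜 E]

/-- The integral closure of `𝕜[t]` in `E`. -/
abbrev affRing (t : E) : Subalgebra (Algebra.adjoin 𝕜 {t}) E :=
  integralClosure (Algebra.adjoin 𝕜 {t}) E

variable {𝕜}

theorem isDedekindDomain_adjoin {t : E} (ht : Transcendental 𝕜 t) :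
    IsDedekindDomain (Algebra.adjoin 𝕜 {t}) := by
  have e := Polynomial.algEquivOfTranscendental 𝕜 t ht
  have : IsPrincipalIdealRing (Algebra.adjoin 𝕜 {t}) :=
    IsPrincipalIdealRing.of_surjective e.toRingEquiv.toRingHom e.surjective
  infer_instance

theorem isDedekindDomain_affRing [IsCurveField 𝕜 E] {t : E}
    [Algebra.IsSeparable (IntermediateField.adjoin 𝕜 {t}) E] (ht : Transcendental 𝕜 t) :
    IsDedekindDomain (affRing 𝕜 t) := by
  have := isDedekindDomain_adjoin ht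
  have := finite_adjoin ht
  exact integralClosure.isDedekindDomain (Algebra.adjoin 𝕜 {t})
    (IntermediateField.adjoin 𝕜 {t}) E

theorem isFractionRing_affRing [IsCurveField 𝕜 E] {t : E} (ht : Transcendental 𝕜 t) :
    IsFractionRing (affRing 𝕜 t) E := by
  have := finite_adjoin ht
  exact integralClosure.isFractionRing_of_finite_extension (A := Algebra.adjoin 𝕜 {t})
    (IntermediateField.adjoin 𝕜 {t}) E

/-- The valuation ring of a place. -/
noncomputable def vring (v : Place 𝕜 E) : ValuationSubring E :=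
  (AddValuation.toValuation v.ord).valuationSubring

theorem mem_vring {v : Place 𝕜 E} {x : E} : x ∈ vring v ↔ 0 ≤ v.ord x := Iff.rfl

theorem ord_adjoin_nonneg {t : E} {v : Place 𝕜 E} (hv : 0 ≤ v.ord t) {a : E}
    (ha : a ∈ Algebra.adjoin 𝕜 {t}) : 0 ≤ v.ord a := by
  refine Algebra.adjoin_induction (p := fun x _ => 0 ≤ v.ord x) ?_ ?_ ?_ ?_ ha
  · rintro x rfl
    exact hv
  · exact v.const
  · intro x y _ _ hx hy
    exact (le_min hx hy).trans (v.ord.map_add x y)
  · intro x y _ _ hx hy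
    rw [v.ord.map_mul]
    exact add_nonneg hx hy

theorem ord_affRing_nonneg {t : E} {v : Place 𝕜 E} (hv : 0 ≤ v.ord t) (r : affRing 𝕜 t) :
    0 ≤ v.ord (r : E) := by
  have h : IsIntegral (Algebra.adjoin 𝕜 {t}) (r : E) := r.2
  have h2 : IsIntegral (vring v) (r : E) := by
    refine IsIntegral.map_of_comp_eq ((algebraMap (Algebra.adjoin 𝕜 {t}) E).codRestrict
      (vring v) (fun a => ord_adjoin_nonneg hv a.2)) (RingHom.id E) ?_ h
    ext a
    rfl
  obtain ⟨y, hy⟩ := IsIntegrallyClosed.isIntegral_iff.1 h2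
  rw [← hy]
  exact y.2

theorem one_le_of_pos {x : WithTop ℤ} (h : 0 < x) : 1 ≤ x := by
  induction x with
  | top => exact le_top
  | coe x =>
    have : (0 : ℤ) < x := by exact_mod_cast h
    exact_mod_cast this

/-- The center of a place on the affine curve. -/
def pl (t : E) (v : {v : Place 𝕜 E // 0 ≤ v.ord t}) : Ideal (affRing 𝕜 t) where
  carrier := {r | 0 < v.1.ord (r : E)}
  add_mem' := by
    intro a b ha hb
    exact lt_of_lt_of_le (lt_min ha hb) (v.1.ord.map_add _ _)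
  zero_mem' := by
    show 0 < v.1.ord ((0 : affRing 𝕜 t) : E)
    simp
  smul_mem' := by
    intro c x hx
    show 0 < v.1.ord ((c * x : affRing 𝕜 t) : E)
    have h1 : ((c * x : affRing 𝕜 t) : E) = (c : E) * (x : E) := rfl
    rw [h1, v.1.ord.map_mul]
    exact lt_of_lt_of_le hx (le_add_of_nonneg_left (ord_affRing_nonneg v.2 c))

theorem mem_pl {t : E} {v : {v : Place 𝕜 E // 0 ≤ v.ord t}} {r : affRing 𝕜 t} :
    r ∈ pl t v ↔ 0 < v.1.ord (r : E) := Iff.rfl

theorem ord_eq_zero_of_notMem {t : E} {v : {v : Place 𝕜 E // 0 ≤ v.ord t}} {r : affRing 𝕜 t}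
    (h : r ∉ pl t v) : v.1.ord (r : E) = 0 := by
  rw [mem_pl, not_lt] at h
  exact le_antisymm h (ord_affRing_nonneg v.2 r)

theorem isPrime_pl (t : E) (v : {v : Place 𝕜 E // 0 ≤ v.ord t}) : (pl t v).IsPrime := by
  refine ⟨?_, ?_⟩
  · rw [Ideal.ne_top_iff_one, mem_pl]
    have : ((1 : affRing 𝕜 t) : E) = 1 := rfl
    rw [this, v.1.ord.map_one]
    exact lt_irrefl _
  · intro x y hxy
    by_contra hcon
    push Not at hcon
    have h1 := ord_eq_zero_of_notMem hcon.1
    have h2 := ord_eq_zero_of_notMem hcon.2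
    rw [mem_pl] at hxy
    have h3 : ((x * y : affRing 𝕜 t) : E) = (x : E) * (y : E) := rfl
    rw [h3, v.1.ord.map_mul, h1, h2, add_zero] at hxy
    exact lt_irrefl _ hxy

theorem pow_pl_le {t : E} {v : {v : Place 𝕜 E // 0 ≤ v.ord t}} (n : ℕ) {r : affRing 𝕜 t}
    (h : r ∈ pl t v ^ n) : ((n : ℤ) : WithTop ℤ) ≤ v.1.ord (r : E) := by
  induction n generalizing r with
  | zero => simpa using ord_affRing_nonneg v.2 r
  | succ n ih =>
    rw [pow_succ] at h
    refine Submodule.mul_induction_on h ?_ ?_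
    · intro a ha b hb
      have h1 : ((a * b : affRing 𝕜 t) : E) = (a : E) * (b : E) := rfl
      rw [h1, v.1.ord.map_mul]
      have h2 := add_le_add (ih ha) (one_le_of_pos (mem_pl.1 hb))
      exact_mod_cast h2
    · intro a b ha hb
      exact (le_min ha hb).trans (v.1.ord.map_add _ _)

end Ring

variable {𝕜 E : Type} [Field 𝕜] [IsAlgClosed 𝕜] [Field E] [Algebra 𝕜 E] [IsCurveField 𝕜 E]

theorem exists_div {t : E} (ht : Transcendental 𝕜 t) (z : E) :
    ∃ a b : affRing 𝕜 t, (b : E) ≠ 0 ∧ z * (b : E) = (a : E) := by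
  have := isFractionRing_affRing ht
  obtain ⟨⟨a, b⟩, h⟩ := IsLocalization.surj (nonZeroDivisors (affRing 𝕜 t)) z
  refine ⟨a, b, ?_, h⟩
  have h1 := nonZeroDivisors.ne_zero b.2
  intro h2
  exact h1 (Subtype.ext h2)

omit [IsCurveField 𝕜 E] in
theorem ord_ne_top {v : Place 𝕜 E} {x : E} (hx : x ≠ 0) : v.ord x ≠ ⊤ := by
  intro h
  exact hx (v.ord.top_iff.1 h)

theorem pl_ne_bot {t : E} (ht : Transcendental 𝕜 t) (v : {v : Place 𝕜 E // 0 ≤ v.ord t}) :
    pl t v ≠ ⊥ := by
  obtain ⟨z, hz⟩ := v.1.exists_unif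
  obtain ⟨a, b, hb, hab⟩ := exists_div ht z
  intro hbot
  have h1 : a ∈ pl t v := by
    rw [mem_pl, ← hab, v.1.ord.map_mul, hz]
    exact add_pos_of_pos_of_nonneg (by exact_mod_cast one_pos) (ord_affRing_nonneg v.2 b)
  rw [hbot, Ideal.mem_bot] at h1
  have h2 : z ≠ 0 := by
    rintro rfl
    rw [v.1.ord.map_zero] at hz
    exact absurd hz (by simp)
  rw [h1] at hab
  exact mul_ne_zero h2 hb hab

/-- The valuation ring is the localization of the affine ring. -/
theorem exists_frac {t : E} [Algebra.IsSeparable (IntermediateField.adjoin 𝕜 {t}) E] 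
    (ht : Transcendental 𝕜 t) (v : {v : Place 𝕜 E // 0 ≤ v.ord t}) {z : E}
    (hz : 0 ≤ v.1.ord z) : ∃ s a : affRing 𝕜 t, v.1.ord (s : E) = 0 ∧ (s : E) * z = (a : E) := by
  have := isDedekindDomain_affRing ht
  have hp := isPrime_pl t v
  have hdvr := IsLocalization.AtPrime.isDiscreteValuationRing_of_dedekind_domain (affRing 𝕜 t)
    (pl_ne_bot ht v) (Localization.AtPrime (pl t v))
  have hvr : ValuationRing (Localization.AtPrime (pl t v)) :=
    of_isDiscreteValuationRing _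
  obtain ⟨a, b, hb, hab⟩ := exists_div ht z
  have hinj : Function.Injective (algebraMap (affRing 𝕜 t) (Localization.AtPrime (pl t v))) :=
    IsLocalization.injective (Localization.AtPrime (pl t v))
      (pl t v).primeCompl_le_nonZeroDivisors
  -- a general remark on divisibility in the localization
  have key : ∀ x y : affRing 𝕜 t, algebraMap (affRing 𝕜 t) (Localization.AtPrime (pl t v)) x ∣
      algebraMap (affRing 𝕜 t) (Localization.AtPrime (pl t v)) y →
      ∃ c s : affRing 𝕜 t, s ∉ pl t v ∧ y * s = x * c := by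
    rintro x y ⟨c', hc'⟩
    obtain ⟨⟨c, s⟩, hc⟩ := IsLocalization.surj (pl t v).primeCompl c'
    refine ⟨c, s, s.2, hinj ?_⟩
    rw [map_mul, map_mul, hc', ← hc]
    ring
  have hpvr : PreValuationRing (Localization.AtPrime (pl t v)) := hvr.toPreValuationRing
  rcases ValuationRing.dvd_total (algebraMap (affRing 𝕜 t) (Localization.AtPrime (pl t v)) b)
    (algebraMap (affRing 𝕜 t) (Localization.AtPrime (pl t v)) a) with h | h
  · obtain ⟨c, s, hs, h1⟩ := key _ _ h
    refine ⟨s, c, ord_eq_zero_of_notMem hs, ?_⟩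
    have h2 : (a : E) * (s : E) = (b : E) * (c : E) := congrArg Subtype.val h1
    apply mul_left_cancel₀ hb
    rw [← h2, ← hab]
    ring
  · obtain ⟨c, s, hs, h1⟩ := key _ _ h
    have h2 : (b : E) * (s : E) = (a : E) * (c : E) := congrArg Subtype.val h1
    have h3 : (c : E) * z = (s : E) := by
      apply mul_left_cancel₀ hb
      rw [h2, ← hab]
      ring
    refine ⟨c, s, ?_, h3⟩
    have h4 := congrArg v.1.ord h3
    rw [v.1.ord.map_mul, ord_eq_zero_of_notMem hs] at h4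
    have h5 := ord_affRing_nonneg v.2 c
    refine le_antisymm ?_ h5
    calc v.1.ord (c : E) = v.1.ord (c : E) + 0 := (add_zero _).symm
      _ ≤ v.1.ord (c : E) + v.1.ord z := by gcongr
      _ = 0 := h4

theorem pl_injective {t : E} [Algebra.IsSeparable (IntermediateField.adjoin 𝕜 {t}) E] 
    (ht : Transcendental 𝕜 t) :
    Function.Injective (pl (𝕜 := 𝕜) t) := by
  intro v w h
  apply Subtype.ext
  apply place_eq
  intro f hf
  obtain ⟨s, a, hs, hsa⟩ := exists_frac ht v hf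
  have h1 : s ∉ pl t w := by
    rw [← h, mem_pl, hs]
    exact lt_irrefl _
  have h2 := congrArg w.1.ord hsa
  rw [w.1.ord.map_mul, ord_eq_zero_of_notMem h1, zero_add] at h2
  rw [h2]
  exact ord_affRing_nonneg w.2 a

/-- Approximation at one place. -/
theorem exists_approx_one {t : E} [Algebra.IsSeparable (IntermediateField.adjoin 𝕜 {t}) E] 
    (ht : Transcendental 𝕜 t) (v : {v : Place 𝕜 E // 0 ≤ v.ord t})
    {z : E} (hz : 0 ≤ v.1.ord z) (n : ℕ) :
    ∃ y : affRing 𝕜 t, ((n : ℤ) : WithTop ℤ) ≤ v.1.ord ((y : E) - z) := by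
  obtain ⟨s, a, hs, hsa⟩ := exists_frac ht v hz
  obtain ⟨c, hc⟩ := exists_const v.1 hs.ge
  have hc0 : c ≠ 0 := by
    rintro rfl
    rw [map_zero, sub_zero, hs] at hc
    exact lt_irrefl _ hc
  have hcc : algebraMap 𝕜 E c ≠ 0 := by
    rw [ne_eq, map_eq_zero]
    exact hc0
  set C : 𝕜 →+* affRing 𝕜 t := (algebraMap (Algebra.adjoin 𝕜 {t}) (affRing 𝕜 t)).comp
    (algebraMap 𝕜 (Algebra.adjoin 𝕜 {t})) with hC
  have hCE : ∀ x, ((C x : affRing 𝕜 t) : E) = algebraMap 𝕜 E x := fun x => rfl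
  set q : affRing 𝕜 t := 1 - s * C c⁻¹ with hq
  have hqE : (q : E) = 1 - (s : E) * (algebraMap 𝕜 E c)⁻¹ := by
    have : (q : E) = 1 - (s : E) * ((C c⁻¹ : affRing 𝕜 t) : E) := rfl
    rw [this, hCE, map_inv₀]
  have hq0 : 0 < v.1.ord (q : E) := by
    have h1 : (q : E) = - (((s : E) - algebraMap 𝕜 E c) * algebraMap 𝕜 E c⁻¹) := by
      rw [hqE, map_inv₀]
      field_simp
      ring
    rw [h1, v.1.ord.map_neg, v.1.ord.map_mul]
    exact add_pos_of_pos_of_nonneg hc (v.1.const _)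
  refine ⟨a * (C c⁻¹ * ∑ i ∈ Finset.range n, q ^ i), ?_⟩
  have h2 : ((a * (C c⁻¹ * ∑ i ∈ Finset.range n, q ^ i) : affRing 𝕜 t) : E) - z
      = - (z * (q : E) ^ n) := by
    have h3 : ((a * (C c⁻¹ * ∑ i ∈ Finset.range n, q ^ i) : affRing 𝕜 t) : E)
        = (a : E) * ((algebraMap 𝕜 E c)⁻¹ * ∑ i ∈ Finset.range n, (q : E) ^ i) := by
      push_cast
      rw [hCE, map_inv₀]
    rw [h3, ← hsa]
    have h4 : (s : E) * (algebraMap 𝕜 E c)⁻¹ = 1 - (q : E) := by rw [hqE]; ring
    have h5 := geom_sum_mul (q : E) n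
    calc (s : E) * z * ((algebraMap 𝕜 E c)⁻¹ * ∑ i ∈ Finset.range n, (q : E) ^ i) - z
        = z * (((s : E) * (algebraMap 𝕜 E c)⁻¹) * ∑ i ∈ Finset.range n, (q : E) ^ i) - z := by
          ring
      _ = z * (-((∑ i ∈ Finset.range n, (q : E) ^ i) * ((q : E) - 1))) - z := by
          rw [h4]; ring
      _ = - (z * (q : E) ^ n) := by rw [h5]; ring
  rw [h2, v.1.ord.map_neg, v.1.ord.map_mul, v.1.ord.map_pow]
  have h6 : ((n : ℤ) : WithTop ℤ) ≤ n • v.1.ord (q : E) := by
    have h7 := nsmul_le_nsmul_right (one_le_of_pos hq0) n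
    refine le_trans (le_of_eq ?_) h7
    simp
  calc ((n : ℤ) : WithTop ℤ) = 0 + ((n : ℤ) : WithTop ℤ) := (zero_add _).symm
    _ ≤ _ := add_le_add hz h6

theorem le_of_add_coe_le {a : WithTop ℤ} {d m : ℤ} (h : ((d + m : ℤ) : WithTop ℤ) ≤ a + (m : ℤ)) :
    ((d : ℤ) : WithTop ℤ) ≤ a := by
  induction a with
  | top => exact le_top
  | coe a =>
    have h1 : d + m ≤ a + m := by exact_mod_cast h
    have : d ≤ a := by linarith
    exact_mod_cast this

end Approx

open Approx in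
/-- Strong approximation on the affine curve where `t` is regular. -/
theorem strong_approx {𝕜 E : Type} [Field 𝕜] [IsAlgClosed 𝕜] [Field E] [Algebra 𝕜 E] [IsCurveField 𝕜 E] {t : E}
    [Algebra.IsSeparable (IntermediateField.adjoin 𝕜 {t}) E] (ht : Transcendental 𝕜 t)
    (D : Place 𝕜 E →₀ ℤ) (κ : Place 𝕜 E → E)
    (hκ : {v : Place 𝕜 E | v.ord (κ v) < 0}.Finite) :
    ∃ k : E, ∀ v : Place 𝕜 E, 0 ≤ v.ord t → ((D v : ℤ) : WithTop ℤ) ≤ v.ord (k - κ v) := by
  classical
  have hded := isDedekindDomain_affRing ht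
  have hfrac := isFractionRing_affRing ht
  -- common denominator
  obtain ⟨⟨r, hr0⟩, hr⟩ := IsLocalization.exist_integer_multiples_of_finset
    (nonZeroDivisors (affRing 𝕜 t)) (hκ.toFinset.image κ)
  have hrE : (r : E) ≠ 0 := by
    intro h
    exact nonZeroDivisors.ne_zero hr0 (Subtype.ext h)
  have hrκ : ∀ v : Place 𝕜 E, 0 ≤ v.ord t → 0 ≤ v.ord ((r : E) * κ v) := by
    intro v hv
    by_cases h : v.ord (κ v) < 0
    · obtain ⟨y, hy⟩ := hr (κ v) (Finset.mem_image_of_mem _ (by simpa using h))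
      have h1 : (r : E) * κ v = (y : E) := hy.symm
      rw [h1]
      exact ord_affRing_nonneg hv y
    · rw [v.ord.map_mul]
      exact add_nonneg (ord_affRing_nonneg hv r) (not_lt.1 h)
  -- the bad set
  set S₀ : Set (Place 𝕜 E) := {v | v.ord (r : E) ≠ 0} ∪ (D.support : Set (Place 𝕜 E)) ∪
    {v | v.ord (κ v) < 0} with hS₀
  have hS₀f : S₀.Finite := ((finite_ord_ne hrE).union D.support.finite_toSet).union hκ
  have hSf : {v : {v : Place 𝕜 E // 0 ≤ v.ord t} | v.1 ∈ S₀}.Finite :=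
    hS₀f.preimage Subtype.val_injective.injOn
  -- orders of the denominator
  have hm : ∀ v : Place 𝕜 E, ∃ m : ℤ, v.ord (r : E) = (m : WithTop ℤ) := by
    intro v
    obtain ⟨m, hm⟩ := WithTop.ne_top_iff_exists.1 (ord_ne_top (v := v) hrE)
    exact ⟨m, hm.symm⟩
  choose m hm using hm
  have hm0 : ∀ v : Place 𝕜 E, 0 ≤ v.ord t → 0 ≤ m v := by
    intro v hv
    have := ord_affRing_nonneg hv r
    rw [hm] at this
    exact_mod_cast this
  set n : {v : Place 𝕜 E // 0 ≤ v.ord t} → ℕ := fun v => (max (D v.1) 0 + m v.1).toNat with hn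
  have hnn : ∀ v, ((n v : ℕ) : ℤ) = max (D v.1) 0 + m v.1 := by
    intro v
    exact Int.toNat_of_nonneg (add_nonneg (le_max_right _ _) (hm0 v.1 v.2))
  choose x hx using fun v : {v : Place 𝕜 E // 0 ≤ v.ord t} =>
    exists_approx_one ht v (hrκ v.1 v.2) (n v)
  obtain ⟨y, hy⟩ := IsDedekindDomain.exists_forall_sub_mem_ideal (s := hSf.toFinset)
    (pl t) n (fun v _ => Ideal.prime_of_isPrime (pl_ne_bot ht v) (isPrime_pl t v))
    (fun v _ w _ hvw h => hvw (pl_injective ht h)) (fun v => x v.1)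
  refine ⟨(y : E) / (r : E), fun v hv => ?_⟩
  by_cases hvS : v ∈ S₀
  · have h1 := hy ⟨v, hv⟩ (by simpa using hvS)
    have h2 := pow_pl_le _ h1
    have h3 := hx ⟨v, hv⟩
    have h4 : ((n ⟨v, hv⟩ : ℤ) : WithTop ℤ) ≤ v.ord ((y : E) - (r : E) * κ v) := by
      have h5 : (y : E) - (r : E) * κ v = ((y - x ⟨v, hv⟩ : affRing 𝕜 t) : E)
          + ((x ⟨v, hv⟩ : E) - (r : E) * κ v) := by
        push_cast
        ring
      rw [h5]
      exact (le_min h2 h3).trans (v.ord.map_add _ _)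
    have h6 : (y : E) - (r : E) * κ v = ((y : E) / (r : E) - κ v) * (r : E) := by
      field_simp
    rw [h6, v.ord.map_mul, hm v, hnn] at h4
    refine le_trans ?_ (le_of_add_coe_le h4)
    exact_mod_cast le_max_left _ _
  · rw [hS₀] at hvS
    simp only [Set.mem_union, Set.mem_ofPred_eq, not_or, not_not, not_lt, Finset.mem_coe,
      Finsupp.mem_support_iff] at hvS
    obtain ⟨⟨h1, h2⟩, h3⟩ := hvS
    rw [h2]
    have h4 : v.ord (((y : E) / (r : E)) * (r : E)) = v.ord (y : E) := by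
      rw [div_mul_cancel₀ _ hrE]
    rw [v.ord.map_mul, h1, add_zero] at h4
    have h5 : 0 ≤ v.ord ((y : E) / (r : E)) := by
      rw [h4]
      exact ord_affRing_nonneg hv y
    exact (le_min h5 h3).trans (v.ord.map_sub _ _)

end MP7Z
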