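import Mathlib

/-!
# Function fields of curves over an algebraically closed field `𝕜`: places, Riemann-Roch spaces

(port of `MP_966ccb_ag/Curve` from `ℂ` to any algebraically closed field)
-/

namespace MP7Z

/-- `E` is the function field of a curve over `𝕜`. -/
class IsCurveField (𝕜 E : Type) [Field 𝕜] [Field E] [Algebra 𝕜 E] : Prop where
  exists_gen : ∃ t : E, Transcendental 𝕜 t ∧ Module.Finite (IntermediateField.adjoin 𝕜 {t}) E

/-- A place of `E`: a normalized discrete valuation, trivial on `𝕜`. -/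
@[ext]
structure Place (𝕜 E : Type) [Field 𝕜] [Field E] [Algebra 𝕜 E] where
  /-- the order function -/
  ord : AddValuation E (WithTop ℤ)
  exists_unif : ∃ z, ord z = 1
  const : ∀ c : 𝕜, 0 ≤ ord (algebraMap 𝕜 E c)

section

variable {𝕜 E : Type} [Field 𝕜] [Field E] [Algebra 𝕜 E]

/-- The Riemann-Roch space `L(D)`. -/
def Lsp (D : Place 𝕜 E → ℤ) : Submodule 𝕜 E where
  carrier := {f | ∀ v : Place 𝕜 E, ((-D v : ℤ) : WithTop ℤ) ≤ v.ord f}
  zero_mem' := fun v => by simp
  add_mem' := by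
    intro a b ha hb v
    exact le_trans (le_min (ha v) (hb v)) (v.ord.map_add a b)
  smul_mem' := by
    intro c a ha v
    rw [Algebra.smul_def, AddValuation.map_mul]
    calc ((-D v : ℤ) : WithTop ℤ) = 0 + ((-D v : ℤ) : WithTop ℤ) := (zero_add _).symm
      _ ≤ _ := add_le_add (v.const c) (ha v)

theorem mem_Lsp {D : Place 𝕜 E → ℤ} {f : E} :
    f ∈ Lsp D ↔ ∀ v : Place 𝕜 E, ((-D v : ℤ) : WithTop ℤ) ≤ v.ord f := Iff.rfl

end

end MP7Z
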