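import Pool.Agent.Lib.MP_7f581e_Z.Crv.PlacesOver
import Pool.Agent.Lib.MP_7f581e_Z.Crv.Approx

/-!
# Automorphisms acting on places; Frobenius structures on a curve field
-/

namespace MP7Z

variable {𝕜 E : Type} [Field 𝕜] [IsAlgClosed 𝕜] [Field E] [Algebra 𝕜 E]

theorem Place.ord_ringHom_const_nonneg (σ : E →+* E) (v : Place 𝕜 E) (c : 𝕜) :
    0 ≤ v.ord (σ (algebraMap 𝕜 E c)) := by
  by_cases hc : c = 0
  · subst hc
    rw [map_zero, map_zero, AddValuation.map_zero]
    exact le_top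
  have hne : ∀ d : 𝕜, d ≠ 0 → σ (algebraMap 𝕜 E d) ≠ 0 := fun d hd =>
    (map_ne_zero σ).2 ((map_ne_zero _).2 hd)
  set a := v.pord (σ (algebraMap 𝕜 E c)) with ha
  obtain ⟨d, hd⟩ := IsAlgClosed.exists_pow_nat_eq c (Nat.succ_pos a.natAbs)
  have hd0 : d ≠ 0 := by
    rintro rfl
    rw [zero_pow (Nat.succ_ne_zero _)] at hd
    exact hc hd.symm
  have h1 : a = ((a.natAbs + 1 : ℕ) : ℤ) * v.pord (σ (algebraMap 𝕜 E d)) := by
    rw [ha, ← v.pord_pow (hne d hd0), ← map_pow, ← map_pow, hd]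
  have h2 : a = 0 := by
    have h3 : ((a.natAbs + 1 : ℕ) : ℤ) ∣ a := ⟨_, h1⟩
    by_contra h
    have h4 := Int.natAbs_dvd_natAbs.2 h3
    have h5 := Nat.le_of_dvd (Int.natAbs_pos.2 h) h4
    rw [Int.natAbs_natCast] at h5
    omega
  rw [v.ord_eq_pord (hne c hc), ← ha, h2]
  rfl

/-- The place `v ∘ σ`, for a ring automorphism `σ` of `E` (not assumed to fix `𝕜`). -/
noncomputable def Place.comap (σ : E ≃+* E) (v : Place 𝕜 E) : Place 𝕜 E where
  ord := v.ord.comap (σ : E →+* E)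
  exists_unif := by
    obtain ⟨z, hz⟩ := v.exists_unif
    refine ⟨σ.symm z, ?_⟩
    change v.ord (σ (σ.symm z)) = 1
    rw [RingEquiv.apply_symm_apply, hz]
  const := fun c => v.ord_ringHom_const_nonneg (σ : E →+* E) c

@[simp] theorem Place.comap_ord (σ : E ≃+* E) (v : Place 𝕜 E) (f : E) :
    (v.comap σ).ord f = v.ord (σ f) := rfl

@[simp] theorem Place.comap_pord (σ : E ≃+* E) (v : Place 𝕜 E) (f : E) :
    (v.comap σ).pord f = v.pord (σ f) := rfl

@[simp] theorem Place.comap_one (v : Place 𝕜 E) : v.comap (1 : E ≃+* E) = v := by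
  ext f; rfl

theorem Place.comap_mul (σ τ : E ≃+* E) (v : Place 𝕜 E) :
    v.comap (σ * τ) = (v.comap σ).comap τ := by
  ext f; rfl

omit [IsAlgClosed 𝕜] in
@[simp] theorem Place.oz_eq_pord (v : Place 𝕜 E) (f : E) : v.oz f = v.pord f := rfl

/-- `φ` is a Frobenius automorphism of `E / 𝕜` for the constant field `𝔽_q`: it induces `c ↦ c ^ q`
on the constants `𝕜`, fixes a separating transcendental element, and every element of `E` is
fixed by a power of `φ`.  (So `𝕜` is an algebraic closure of `𝔽_q`, and the fixed field of `φ` is a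
function field with exact constant field `𝔽_q`, of which `E` is the constant field extension.) -/
structure IsFrob (𝕜 : Type) {E : Type} [Field 𝕜] [Field E] [Algebra 𝕜 E] (q : ℕ) (φ : E ≃+* E) :
    Prop where
  primePow : IsPrimePow q
  card : (q : 𝕜) = 0
  frob : ∀ c : 𝕜, φ (algebraMap 𝕜 E c) = algebraMap 𝕜 E (c ^ q)
  fin : ∀ f : E, ∃ n > 0, (φ ^ n) f = f
  sep : ∃ x : E, φ x = x ∧ Transcendental 𝕜 x ∧
    Algebra.IsSeparable (IntermediateField.adjoin 𝕜 {x}) E

/-- The number of places in the orbit of `v` under `φ` (the degree of the place of the fixed field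
of `φ` below `v`); `0` if the orbit is infinite (which never happens under `IsFrob`). -/
noncomputable def orbLen (φ : E ≃+* E) (v : Place 𝕜 E) : ℕ :=
  Function.minimalPeriod (fun w : Place 𝕜 E => w.comap φ) v

/-- `v` is a zero of `x`, or the residue of `x` at `v` is a root of unity of order prime to `ℓ`. -/
def Bad (ℓ : ℕ) (x : E) (v : Place 𝕜 E) : Prop :=
  0 < v.ord x ∨ ∃ m : ℕ, 0 < m ∧ m.Coprime ℓ ∧ 0 < v.ord (x ^ m - 1)

end MP7Z
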