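import Pool.Agent.Lib.MP_7f581e_Z.Crv.PlacesOver_aux

/-!
# The fundamental identity
-/

namespace MP7Z

open IsDedekindDomain (HeightOneSpectrum)
open WithZero
open scoped IntermediateField

variable {𝕜 E : Type} [Field 𝕜] [IsAlgClosed 𝕜] [Field E] [Algebra 𝕜 E] [IsCurveField 𝕜 E]

set_option linter.deprecated false in
/-- The fundamental identity, with the information that all the places over `Q` occur. -/
theorem exists_places_over_aux {k : Type} [Field k] [Algebra 𝕜 k] [IsCurveField 𝕜 k] [Algebra k E]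
    [IsScalarTower 𝕜 k E] [Module.Finite k E] [Algebra.IsSeparable k E] (Q : Place 𝕜 k) :
    ∃ (S : Finset (Place 𝕜 E)) (e : Place 𝕜 E → ℕ),
      (∀ v ∈ S, 0 < e v ∧ ∀ x : k, v.ord (algebraMap k E x) = e v • Q.ord x) ∧
      ∑ v ∈ S, e v = Module.finrank k E ∧
      ∀ v : Place 𝕜 E, (∀ x : k, 0 ≤ Q.ord x → 0 ≤ v.ord (algebraMap k E x)) →
        (∀ x : k, 0 < Q.ord x → 0 < v.ord (algebraMap k E x)) → v ∈ S := by
  classical
  set B := integralClosure Q.ring E with hB
  have hBD : IsDedekindDomain B := integralClosure.isDedekindDomain Q.ring k E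
  have hBF : IsFractionRing B E := integralClosure.isFractionRing_of_finite_extension k E
  have hBfin : Module.Finite Q.ring B := IsIntegralClosure.finite Q.ring k E B
  -- the maximal ideal
  set p : Ideal Q.ring := IsLocalRing.maximalIdeal Q.ring with hp
  have hp0 : p ≠ ⊥ := IsDiscreteValuationRing.not_a_field Q.ring
  have hpmax : p.IsMaximal := IsLocalRing.maximalIdeal.isMaximal _
  let vQ : HeightOneSpectrum Q.ring := ⟨p, hpmax.isPrime, hp0⟩
  have hvQ : ∀ w : HeightOneSpectrum Q.ring, w = vQ := by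
    intro w
    have : w.asIdeal.IsMaximal := w.isMaximal
    exact HeightOneSpectrum.ext (IsLocalRing.eq_maximalIdeal this)
  have hQval : ∀ f : k, vQ.valuation k f ≤ 1 ↔ 0 ≤ Q.ord f := by
    intro f
    constructor
    · intro h
      obtain ⟨a, ha⟩ := HeightOneSpectrum.mem_integers_of_valuation_le_one k f
        (fun w => by rw [hvQ w]; exact h)
      rw [← ha]
      exact a.2
    · intro h
      exact vQ.valuation_le_one (K := k) (⟨f, h⟩ : Q.ring)
  have hQeq : ∀ f : k, f ≠ 0 → vQ.valuation k f = exp (-(Q.oz f)) := fun f hf =>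
    Q.valuation_eq _ (vQ.valuation_exists_uniformizer k) hQval hf
  -- the place of a prime
  have hplace : ∀ P : HeightOneSpectrum B, ∃ v : Place 𝕜 E, ∀ f : E, P.valuation E f ≤ 1 ↔
      0 ≤ v.ord f := by
    intro P
    have hne : (P.valuation E).valuationSubring ≠ ⊤ := by
      intro h
      obtain ⟨ϖ, hϖ⟩ := P.valuation_exists_uniformizer E
      have h1 : ϖ⁻¹ ∈ (P.valuation E).valuationSubring := by rw [h]; trivial
      rw [Valuation.mem_valuationSubring_iff, map_inv₀, hϖ, ← exp_neg, ← exp_zero] at h1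
      have := exp_le_exp.1 h1
      norm_num at this
    obtain ⟨v, hv⟩ := exists_place_of_valuationSubring (P.valuation E).valuationSubring hne (by
      intro c
      rw [Valuation.mem_valuationSubring_iff]
      have h1 : algebraMap 𝕜 E c = algebraMap B E (algebraMap Q.ring B ⟨algebraMap 𝕜 k c,
          Q.const c⟩) := by
        rw [← IsScalarTower.algebraMap_apply Q.ring B E, IsScalarTower.algebraMap_apply 𝕜 k E]
        rfl
      rw [h1]
      exact P.valuation_le_one _)
    exact ⟨v, fun f => by rw [← hv f, Valuation.mem_valuationSubring_iff]⟩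
  choose pl hpl using hplace
  have hpleq : ∀ (P : HeightOneSpectrum B) (f : E), f ≠ 0 →
      P.valuation E f = exp (-((pl P).oz f)) := fun P f hf =>
    (pl P).valuation_eq _ (P.valuation_exists_uniformizer E) (hpl P) hf
  have hpllt : ∀ (P : HeightOneSpectrum B) (f : E), P.valuation E f < 1 ↔ 0 < (pl P).ord f := by
    intro P f
    by_cases hf : f = 0
    · subst hf
      rw [map_zero, AddValuation.map_zero]
      exact ⟨fun _ => WithTop.coe_lt_top 0, fun _ => zero_lt_one⟩
    · rw [hpleq P f hf, (pl P).pos_iff hf, ← exp_zero, exp_lt_exp]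
      omega
  have hplinj : Function.Injective pl := by
    intro P P' h
    ext b
    rw [← P.valuation_lt_one_iff_mem (K := E), ← P'.valuation_lt_one_iff_mem (K := E), hpllt, hpllt,
      h]
  -- the primes over `p`
  have hBinj : Function.Injective (algebraMap Q.ring B) := by
    intro a b hab
    have h1 : algebraMap k E (a : k) = algebraMap k E (b : k) := congrArg Subtype.val hab
    exact Subtype.ext ((algebraMap k E).injective h1)
  have hfaith : FaithfulSMul Q.ring B := (faithfulSMul_iff_algebraMap_injective _ _).2 hBinj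
  have hprime : ∀ P ∈ IsDedekindDomain.primesOverFinset p B, P.IsPrime ∧ P.LiesOver p := by
    intro P hP
    exact (IsDedekindDomain.mem_primesOverFinset_iff hp0 B).1 hP
  have hbot : ∀ P ∈ IsDedekindDomain.primesOverFinset p B, P ≠ ⊥ := by
    intro P hP
    have h1 := (hprime P hP).2
    exact Ideal.ne_bot_of_liesOver_of_ne_bot hp0 P
  let mk : {P // P ∈ IsDedekindDomain.primesOverFinset p B} → HeightOneSpectrum B := fun P =>
    ⟨P.1, (hprime P.1 P.2).1, hbot P.1 P.2⟩
  have hmk : Function.Injective mk := by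
    intro P P' h
    exact Subtype.ext (congrArg HeightOneSpectrum.asIdeal h)
  obtain ⟨z, hz⟩ := Q.exists_unif
  have hz0 : z ≠ 0 := by
    rintro rfl
    rw [AddValuation.map_zero] at hz
    exact WithTop.top_ne_one hz
  have hz1 : Q.oz z = 1 := Q.oz_eq (by rw [hz]; rfl)
  have hinj : Function.Injective (algebraMap k E) := (algebraMap k E).injective
  have hram : ∀ (P : {P // P ∈ IsDedekindDomain.primesOverFinset p B}) (x : k), x ≠ 0 →
      (pl (mk P)).oz (algebraMap k E x) = (p.ramificationIdx' P.1 : ℤ) * Q.oz x := by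
    intro P x hx
    have hx' : algebraMap k E x ≠ 0 := (map_ne_zero _).2 hx
    have hlo : (mk P).asIdeal.LiesOver vQ.asIdeal := (hprime P.1 P.2).2
    have h1 := HeightOneSpectrum.valuation_liesOver (K := k) E vQ (mk P) x
    rw [hQeq x hx, hpleq (mk P) _ hx', ← exp_nsmul, exp_inj] at h1
    have h2 : vQ.asIdeal.ramificationIdx' (mk P).asIdeal = p.ramificationIdx' P.1 := rfl
    rw [h2, nsmul_eq_mul] at h1
    linarith
  have hrampos : ∀ (P : {P // P ∈ IsDedekindDomain.primesOverFinset p B}), 0 < p.ramificationIdx' P.1 := by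
    intro P
    have h1 := (hprime P.1 P.2).1
    have h2 := (hprime P.1 P.2).2
    exact Nat.pos_of_ne_zero (Ideal.IsDedekindDomain.ramificationIdx'_ne_zero_of_liesOver P.1 hp0)
  have hinert : ∀ (P : {P // P ∈ IsDedekindDomain.primesOverFinset p B}), p.inertiaDeg' P.1 = 1 := by
    intro P
    have h1 := (hprime P.1 P.2).1
    have h2 := (hprime P.1 P.2).2
    rw [Ideal.inertiaDeg'_algebraMap]
    let _ := Ideal.Quotient.field p
    have h3 : (1 : B ⧸ P.1) ≠ 0 := by
      have : Nontrivial (B ⧸ P.1) := Ideal.Quotient.nontrivial_iff.2 h1.ne_top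
      exact one_ne_zero
    refine (finrank_eq_one_iff_of_nonzero' (K := Q.ring ⧸ p) (1 : B ⧸ P.1) h3).2 ?_
    intro w
    obtain ⟨b, rfl⟩ := Ideal.Quotient.mk_surjective w
    have h4 : 0 ≤ (pl (mk P)).ord (b : E) := (hpl (mk P) _).1 ((mk P).valuation_le_one (K := E) b)
    obtain ⟨c, hc⟩ := exists_const (pl (mk P)) h4
    let c' : Q.ring := ⟨algebraMap 𝕜 k c, Q.const c⟩
    have h5 : algebraMap 𝕜 E c = ((algebraMap Q.ring B c' : B) : E) := by
      rw [IsScalarTower.algebraMap_apply 𝕜 k E]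
      rfl
    refine ⟨Ideal.Quotient.mk p c', ?_⟩
    rw [Algebra.smul_def, mul_one]
    have h6 : b - algebraMap Q.ring B c' ∈ P.1 := by
      have h7 := (mk P).valuation_lt_one_iff_mem (K := E) (b - algebraMap Q.ring B c')
      refine h7.1 ((hpllt _ _).2 ?_)
      rw [h5] at hc
      exact hc
    rw [← Ideal.Quotient.eq] at h6
    rw [h6]
    rfl
  refine ⟨(IsDedekindDomain.primesOverFinset p B).attach.image (fun P => pl (mk P)),
    fun v => (v.oz (algebraMap k E z)).toNat, ?_, ?_, ?_⟩
  · intro v hv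
    rw [Finset.mem_image] at hv
    obtain ⟨P, -, rfl⟩ := hv
    have he : (pl (mk P)).oz (algebraMap k E z) = (p.ramificationIdx' P.1 : ℤ) := by
      rw [hram P z hz0, hz1, mul_one]
    simp only [he, Int.toNat_natCast]
    refine ⟨hrampos P, fun x => ?_⟩
    by_cases hx : x = 0
    · subst hx
      rw [map_zero, AddValuation.map_zero, AddValuation.map_zero]
      obtain ⟨m, hm⟩ := Nat.exists_eq_succ_of_ne_zero (hrampos P).ne'
      rw [hm, succ_nsmul, WithTop.add_top]
    · rw [(pl (mk P)).ord_eq ((map_ne_zero _).2 hx), hram P x hx, Q.ord_eq hx]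
      rw [← WithTop.coe_nsmul, nsmul_eq_mul]
  · rw [Finset.sum_image (fun a _ b _ h => hmk (hplinj h))]
    have he : ∀ P : {P // P ∈ IsDedekindDomain.primesOverFinset p B},
        ((pl (mk P)).oz (algebraMap k E z)).toNat = p.ramificationIdx' P.1 * p.inertiaDeg' P.1 := by
      intro P
      rw [hram P z hz0, hz1, mul_one, Int.toNat_natCast, hinert P, mul_one]
    simp only [he]
    rw [Finset.sum_attach _ (fun P => p.ramificationIdx' P * p.inertiaDeg' P)]
    exact Ideal.sum_ramification_inertia B k E hp0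
  · intro v hv hv'
    -- the centre of `v` on `B`
    have hB0 : ∀ b : B, 0 ≤ v.ord (b : E) := by
      intro b
      have hb : IsIntegral Q.ring (b : E) := b.2
      have h1 : IsIntegral v.ring (b : E) := by
        let φ : Q.ring →+* v.ring := ((algebraMap k E).comp (algebraMap Q.ring k)).codRestrict
          v.ring.toSubring (fun x => hv x x.2)
        exact hb.map_of_comp_eq φ (RingHom.id E) (by ext x; rfl)
      obtain ⟨y, hy⟩ := (IsIntegrallyClosed.isIntegral_iff (R := v.ring) (K := E)).1 h1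
      rw [← hy]
      exact y.2
    let P : Ideal B :=
      { carrier := {b | 0 < v.ord (b : E)}
        add_mem' := by
          intro a b ha hb
          exact lt_of_lt_of_le (lt_min ha hb) (v.ord.map_add _ _)
        zero_mem' := by
          change 0 < v.ord ((0 : B) : E)
          rw [ZeroMemClass.coe_zero, AddValuation.map_zero]
          exact WithTop.coe_lt_top 0
        smul_mem' := by
          intro c a ha
          change 0 < v.ord ((c • a : B) : E)
          rw [smul_eq_mul, MulMemClass.coe_mul, AddValuation.map_mul]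
          exact lt_of_lt_of_le (lt_of_lt_of_le ha (le_of_eq (zero_add _).symm))
            (add_le_add (hB0 c) le_rfl) }
    have hPmem : ∀ b : B, b ∈ P ↔ 0 < v.ord (b : E) := fun b => Iff.rfl
    have hPprime : P.IsPrime := by
      refine ⟨?_, ?_⟩
      · intro h
        have : (1 : B) ∈ P := by rw [h]; trivial
        rw [hPmem, OneMemClass.coe_one, AddValuation.map_one] at this
        exact lt_irrefl _ this
      · intro a b hab
        rw [hPmem, MulMemClass.coe_mul, AddValuation.map_mul] at hab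
        rw [hPmem, hPmem]
        by_contra hcon
        push Not at hcon
        have := add_le_add hcon.1 hcon.2
        rw [zero_add] at this
        exact absurd hab (not_lt.2 this)
    have hPover : P.LiesOver p := by
      refine ⟨?_⟩
      ext x
      rw [Ideal.mem_comap, hPmem]
      have h1 : ((algebraMap Q.ring B x : B) : E) = algebraMap k E (x : k) := rfl
      rw [h1]
      constructor
      · intro hx
        apply hv'
        by_cases hx0 : (x : k) = 0
        · rw [hx0, AddValuation.map_zero]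
          exact WithTop.coe_lt_top 0
        · have h2 : Q.oz (x : k) ≠ 0 := fun h3 => hx (Q.isUnit_of x h3 (fun h4 => hx0 (by
            rw [h4]; rfl)))
          have h3 : 0 ≤ Q.oz (x : k) := (Q.nonneg_iff hx0).1 x.2
          rw [Q.pos_iff hx0]
          omega
      · intro hx
        rw [hp, IsLocalRing.mem_maximalIdeal, mem_nonunits_iff]
        rintro ⟨u, rfl⟩
        have h2 : ((u : Q.ring) : k) * ((↑u⁻¹ : Q.ring) : k) = 1 :=
          congrArg (Subtype.val) (u.mul_inv)
        have h3 : 0 ≤ v.ord (algebraMap k E ((↑u⁻¹ : Q.ring) : k)) := hv _ (↑u⁻¹ : Q.ring).2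
        have h4 : 0 < v.ord (algebraMap k E (((u : Q.ring) : k) * ((↑u⁻¹ : Q.ring) : k))) := by
          rw [map_mul, AddValuation.map_mul]
          exact lt_of_lt_of_le (lt_of_lt_of_le hx (le_of_eq (add_zero _).symm))
            (add_le_add le_rfl h3)
        rw [h2, map_one, AddValuation.map_one] at h4
        exact lt_irrefl _ h4
    have hPmemF : P ∈ IsDedekindDomain.primesOverFinset p B :=
      (IsDedekindDomain.mem_primesOverFinset_iff hp0 B).2 ⟨hPprime, hPover⟩
    rw [Finset.mem_image]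
    refine ⟨⟨P, hPmemF⟩, Finset.mem_attach _ _, ?_⟩
    apply place_eq
    intro f hf
    have h1 := (hpl (mk ⟨P, hPmemF⟩) f).2 hf
    obtain ⟨n, d, hnd⟩ := (mk ⟨P, hPmemF⟩).exists_primeCompl_mul_eq_of_integer f h1
    have hd : v.ord ((d : B) : E) = 0 := by
      have h2 : ¬ 0 < v.ord ((d : B) : E) := fun h => d.2 ((hPmem _).2 h)
      exact le_antisymm (not_lt.1 h2) (hB0 _)
    have h3 : v.ord (f * ((d : B) : E)) = v.ord (n : E) := congrArg v.ord hnd
    rw [AddValuation.map_mul, hd, add_zero] at h3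
    rw [h3]
    exact hB0 n

/-- The fundamental identity for the places over a place of a subfield. -/
theorem exists_places_over {k : Type} [Field k] [Algebra 𝕜 k] [IsCurveField 𝕜 k] [Algebra k E]
    [IsScalarTower 𝕜 k E] [Module.Finite k E] [Algebra.IsSeparable k E] (Q : Place 𝕜 k) :
    ∃ (S : Finset (Place 𝕜 E)) (e : Place 𝕜 E → ℕ),
      (∀ v ∈ S, 0 < e v ∧ ∀ x : k, v.ord (algebraMap k E x) = e v • Q.ord x) ∧
      ∑ v ∈ S, e v = Module.finrank k E := by
  obtain ⟨S, e, h1, h2, -⟩ := exists_places_over_aux (E := E) Q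
  exact ⟨S, e, h1, h2⟩

omit [IsCurveField 𝕜 E] in
theorem Place.ord_const (v : Place 𝕜 E) {c : 𝕜} (hc : c ≠ 0) : v.ord (algebraMap 𝕜 E c) = 0 := by
  have h1 := v.const c
  have h2 := v.const c⁻¹
  have hc' : algebraMap 𝕜 E c ≠ 0 := (map_ne_zero _).2 hc
  rw [v.nonneg_iff hc'] at h1
  rw [map_inv₀, v.nonneg_iff (inv_ne_zero hc'), v.oz_inv hc'] at h2
  rw [v.ord_eq hc']
  have h3 : v.oz (algebraMap 𝕜 E c) = 0 := by omega
  rw [h3]
  rfl

omit [IsCurveField 𝕜 E] in
theorem Place.ord_aeval_nonneg (v : Place 𝕜 E) {x : E} (hx : 0 ≤ v.ord x) (d : Polynomial 𝕜) :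
    0 ≤ v.ord (Polynomial.aeval x d) := by
  have h : Polynomial.aeval x d ∈ v.ring := by
    rw [Polynomial.aeval_eq_sum_range]
    refine sum_mem fun i _ => ?_
    rw [Algebra.smul_def]
    exact mul_mem (v.const _) (pow_mem (show x ∈ v.ring from hx) _)
  exact h

omit [IsCurveField 𝕜 E] in
/-- the place `x = 0` of `𝕜(x)` -/
theorem exists_place_zero {x : E} (hx : Transcendental 𝕜 x) [IsCurveField 𝕜 𝕜⟮x⟯] :
    ∃ Q : Place 𝕜 𝕜⟮x⟯, Q.oz (IntermediateField.AdjoinSimple.gen 𝕜 x) = 1 ∧
      ∀ f, 0 ≤ Q.ord f → ∃ n d : Polynomial 𝕜, d.coeff 0 ≠ 0 ∧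
        f * Polynomial.aeval (IntermediateField.AdjoinSimple.gen 𝕜 x) d =
          Polynomial.aeval (IntermediateField.AdjoinSimple.gen 𝕜 x) n := by
  let P0 : HeightOneSpectrum (Polynomial 𝕜) :=
    ⟨Ideal.span {Polynomial.X}, (Ideal.span_singleton_prime Polynomial.X_ne_zero).2
      Polynomial.prime_X, by simp⟩
  let e : RatFunc 𝕜 ≃ₐ[𝕜] 𝕜⟮x⟯ := RatFunc.algEquivOfTranscendental x hx
  let w : Valuation 𝕜⟮x⟯ ℤᵐ⁰ := (P0.valuation (RatFunc 𝕜)).comap (e.symm : 𝕜⟮x⟯ →+* RatFunc 𝕜)
  have hw : ∀ f, w f = P0.valuation (RatFunc 𝕜) (e.symm f) := fun f => rfl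
  have heX : e RatFunc.X = IntermediateField.AdjoinSimple.gen 𝕜 x := by
    apply Subtype.ext
    rw [IntermediateField.AdjoinSimple.coe_gen]
    exact RatFunc.algEquivOfTranscendental_X x hx
  have hgen : w (IntermediateField.AdjoinSimple.gen 𝕜 x) = exp (-1 : ℤ) := by
    rw [hw, ← heX, AlgEquiv.symm_apply_apply, ← RatFunc.algebraMap_X, P0.valuation_of_algebraMap]
    exact P0.intValuation_singleton Polynomial.X_ne_zero rfl
  have hne : w.valuationSubring ≠ ⊤ := by
    intro h
    have h1 : (IntermediateField.AdjoinSimple.gen 𝕜 x)⁻¹ ∈ w.valuationSubring := by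
      rw [h]; trivial
    rw [Valuation.mem_valuationSubring_iff, map_inv₀, hgen, ← exp_neg, ← exp_zero] at h1
    have := exp_le_exp.1 h1
    norm_num at this
  obtain ⟨Q, hQ⟩ := exists_place_of_valuationSubring w.valuationSubring hne (by
    intro c
    rw [Valuation.mem_valuationSubring_iff, hw, AlgEquiv.commutes,
      IsScalarTower.algebraMap_apply 𝕜 (Polynomial 𝕜) (RatFunc 𝕜)]
    exact P0.valuation_le_one _)
  have hQ' : ∀ f, w f ≤ 1 ↔ 0 ≤ Q.ord f := fun f => by
    rw [← hQ f, Valuation.mem_valuationSubring_iff]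
  have hgen0 : IntermediateField.AdjoinSimple.gen 𝕜 x ≠ 0 := by
    intro h
    rw [h, map_zero] at hgen
    exact exp_ne_zero hgen.symm
  refine ⟨Q, ?_, ?_⟩
  · have h1 := Q.valuation_eq w ⟨_, hgen⟩ hQ' hgen0
    rw [hgen, exp_inj] at h1
    omega
  · intro f hf
    have h1 := (hQ' f).2 hf
    rw [hw] at h1
    obtain ⟨n, d, hnd⟩ := P0.exists_primeCompl_mul_eq_of_integer _ h1
    refine ⟨n, d, ?_, ?_⟩
    · intro h2
      refine d.2 ?_
      change (d : Polynomial 𝕜) ∈ Ideal.span {Polynomial.X}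
      rw [Ideal.mem_span_singleton, Polynomial.X_dvd_iff]
      exact h2
    · have h2 := congrArg e hnd
      rw [map_mul, AlgEquiv.apply_symm_apply] at h2
      have h3 : ∀ g : Polynomial 𝕜, e (algebraMap (Polynomial 𝕜) (RatFunc 𝕜) g) =
          Polynomial.aeval (IntermediateField.AdjoinSimple.gen 𝕜 x) g := by
        intro g
        apply Subtype.ext
        have h4 := RatFunc.algEquivOfTranscendental_algebraMap x hx g
        rw [h4]
      rw [h3, h3] at h2
      exact h2

/-- The number of zeros of a function is its degree. -/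
theorem sum_zeros {x : E} [Algebra.IsSeparable 𝕜⟮x⟯ E] (hx : Transcendental 𝕜 x) :
    ∃ S : Finset (Place 𝕜 E), (∀ v, v ∈ S ↔ 0 < v.ord x) ∧
      ∑ v ∈ S, (v.ord x).untopD 0 = (Module.finrank (IntermediateField.adjoin 𝕜 {x}) E : ℤ) := by
  have hfin : Module.Finite 𝕜⟮x⟯ E := finite_adjoin hx
  have hcurve : IsCurveField 𝕜 𝕜⟮x⟯ := isCurveField_sub (E := E) 𝕜⟮x⟯
  obtain ⟨Q, hQ1, hQ2⟩ := exists_place_zero hx
  obtain ⟨S, e, h1, h2, h3⟩ := exists_places_over_aux (E := E) Q
  have hx0 : x ≠ 0 := by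
    rintro rfl
    exact hx (isAlgebraic_zero)
  have hgen0 : IntermediateField.AdjoinSimple.gen 𝕜 x ≠ 0 := by
    intro h
    rw [h] at hQ1
    rw [Place.oz, AddValuation.map_zero] at hQ1
    exact zero_ne_one hQ1
  have hord : ∀ v ∈ S, v.ord x = ((e v : ℤ) : WithTop ℤ) := by
    intro v hv
    have h4 := (h1 v hv).2 (IntermediateField.AdjoinSimple.gen 𝕜 x)
    rw [Q.ord_eq hgen0, hQ1, ← WithTop.coe_nsmul, nsmul_eq_mul, mul_one,
      IntermediateField.AdjoinSimple.algebraMap_gen] at h4
    exact h4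
  have haev : ∀ g : Polynomial 𝕜, algebraMap 𝕜⟮x⟯ E
      (Polynomial.aeval (IntermediateField.AdjoinSimple.gen 𝕜 x) g) = Polynomial.aeval x g := by
    intro g
    rw [← Polynomial.aeval_algebraMap_apply, IntermediateField.AdjoinSimple.algebraMap_gen]
  have hnn : ∀ v : Place 𝕜 E, 0 < v.ord x → ∀ f : 𝕜⟮x⟯, 0 ≤ Q.ord f →
      0 ≤ v.ord (algebraMap 𝕜⟮x⟯ E f) := by
    intro v hv f hf
    obtain ⟨n, d, hd, hnd⟩ := hQ2 f hf
    have h4 := congrArg (algebraMap 𝕜⟮x⟯ E) hnd
    rw [map_mul, haev, haev] at h4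
    have h5 : v.ord (Polynomial.aeval x d) = 0 := by
      have h6 : Polynomial.aeval x d = algebraMap 𝕜 E (d.coeff 0) +
          x * Polynomial.aeval x d.divX := by
        conv_lhs => rw [← Polynomial.divX_mul_X_add d]
        rw [map_add, map_mul, Polynomial.aeval_X, Polynomial.aeval_C]
        ring
      have h7 : 0 < v.ord (x * Polynomial.aeval x d.divX) := by
        rw [AddValuation.map_mul]
        exact lt_of_lt_of_le (lt_of_lt_of_le hv (le_of_eq (add_zero _).symm))
          (add_le_add le_rfl (v.ord_aeval_nonneg hv.le _))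
      rw [h6, AddValuation.map_add_eq_of_lt_left]
      · exact v.ord_const hd
      · rw [v.ord_const hd]
        exact h7
    have h6 := congrArg v.ord h4
    rw [AddValuation.map_mul, h5, add_zero] at h6
    rw [h6]
    exact v.ord_aeval_nonneg hv.le _
  refine ⟨S, fun v => ⟨fun hv => ?_, fun hv => ?_⟩, ?_⟩
  · rw [hord v hv]
    have := (h1 v hv).1
    exact_mod_cast this
  · refine h3 v (hnn v hv) ?_
    intro f hf
    by_cases hf0 : f = 0
    · subst hf0
      rw [map_zero, AddValuation.map_zero]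
      exact WithTop.coe_lt_top 0
    · have h4 : 0 ≤ Q.ord (f * (IntermediateField.AdjoinSimple.gen 𝕜 x)⁻¹) := by
        rw [Q.nonneg_iff (mul_ne_zero hf0 (inv_ne_zero hgen0)),
          Q.oz_mul hf0 (inv_ne_zero hgen0), Q.oz_inv hgen0, hQ1]
        rw [Q.pos_iff hf0] at hf
        omega
      have h5 := hnn v hv _ h4
      have h6 : algebraMap 𝕜⟮x⟯ E f = algebraMap 𝕜⟮x⟯ E
          (f * (IntermediateField.AdjoinSimple.gen 𝕜 x)⁻¹) * x := by
        rw [map_mul, map_inv₀, IntermediateField.AdjoinSimple.algebraMap_gen]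
        field_simp
      rw [h6, AddValuation.map_mul]
      exact lt_of_lt_of_le (lt_of_lt_of_le hv (le_of_eq (zero_add _).symm))
        (add_le_add h5 le_rfl)
  · rw [← h2]
    push_cast
    refine Finset.sum_congr rfl fun v hv => ?_
    rw [hord v hv]
    rfl

theorem adjoin_sub_const (x : E) (c : 𝕜) :
    (𝕜⟮x - algebraMap 𝕜 E c⟯ : IntermediateField 𝕜 E) = 𝕜⟮x⟯ := by
  apply le_antisymm
  · rw [IntermediateField.adjoin_simple_le_iff]
    exact sub_mem (IntermediateField.mem_adjoin_simple_self 𝕜 x) (𝕜⟮x⟯.algebraMap_mem c)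
  · rw [IntermediateField.adjoin_simple_le_iff]
    have h := add_mem (IntermediateField.mem_adjoin_simple_self 𝕜 (x - algebraMap 𝕜 E c))
      (𝕜⟮x - algebraMap 𝕜 E c⟯.algebraMap_mem c)
    rwa [sub_add_cancel] at h

theorem exists_ord_pos {x : E} [Algebra.IsSeparable 𝕜⟮x⟯ E] (hx : Transcendental 𝕜 x) (c : 𝕜) :
    ∃ v : Place 𝕜 E, 0 < v.ord (x - algebraMap 𝕜 E c) := by
  have hy : Transcendental 𝕜 (x - algebraMap 𝕜 E c) := by
    intro h
    apply hx
    have h1 := h.add (isAlgebraic_algebraMap c)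
    rwa [sub_add_cancel] at h1
  have hsep : Algebra.IsSeparable 𝕜⟮x - algebraMap 𝕜 E c⟯ E := by
    rw [adjoin_sub_const]; infer_instance
  obtain ⟨S, h1, h2⟩ := sum_zeros hy
  have hfin : Module.Finite 𝕜⟮x - algebraMap 𝕜 E c⟯ E := finite_adjoin hy
  have h3 : 0 < Module.finrank 𝕜⟮x - algebraMap 𝕜 E c⟯ E := Module.finrank_pos
  have h4 : S.Nonempty := by
    by_contra h
    rw [Finset.not_nonempty_iff_eq_empty] at h
    subst h
    rw [Finset.sum_empty] at h2
    exact h3.ne' (by exact_mod_cast h2.symm)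
  obtain ⟨v, hv⟩ := h4
  exact ⟨v, (h1 v).1 hv⟩

end MP7Z
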