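import Pool.Agent.Lib.MP_7f581e_Z.Crv.Places

/-!
# Auxiliary results on places: integer valued orders, comparison with adic valuations
-/

namespace MP7Z

open WithZero

section general

variable {𝕜 k : Type} [Field 𝕜] [IsAlgClosed 𝕜] [Field k] [Algebra 𝕜 k]

/-- the order of a function as an integer (`0` for the zero function) -/
noncomputable def Place.oz (v : Place 𝕜 k) (f : k) : ℤ := (v.ord f).untopD 0

theorem Place.ord_eq (v : Place 𝕜 k) {f : k} (hf : f ≠ 0) : v.ord f = ((v.oz f : ℤ) : WithTop ℤ) := by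
  have h : v.ord f ≠ ⊤ := fun h => hf ((AddValuation.top_iff v.ord).1 h)
  obtain ⟨n, hn⟩ := WithTop.ne_top_iff_exists.1 h
  rw [Place.oz, ← hn]
  rfl

theorem Place.oz_eq (v : Place 𝕜 k) {f : k} {n : ℤ} (h : v.ord f = (n : WithTop ℤ)) :
    v.oz f = n := by
  rw [Place.oz, h]; rfl

theorem Place.oz_mul (v : Place 𝕜 k) {f g : k} (hf : f ≠ 0) (hg : g ≠ 0) :
    v.oz (f * g) = v.oz f + v.oz g := by
  apply v.oz_eq
  rw [AddValuation.map_mul, v.ord_eq hf, v.ord_eq hg]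
  rfl

theorem Place.oz_one (v : Place 𝕜 k) : v.oz 1 = 0 := by
  apply v.oz_eq
  rw [AddValuation.map_one]
  rfl

theorem Place.nonneg_iff (v : Place 𝕜 k) {f : k} (hf : f ≠ 0) : 0 ≤ v.ord f ↔ 0 ≤ v.oz f := by
  rw [v.ord_eq hf]
  exact_mod_cast Iff.rfl

theorem Place.pos_iff (v : Place 𝕜 k) {f : k} (hf : f ≠ 0) : 0 < v.ord f ↔ 0 < v.oz f := by
  rw [v.ord_eq hf]
  exact_mod_cast Iff.rfl

/-- the order as a homomorphism -/
noncomputable def Place.ozHom (v : Place 𝕜 k) : kˣ →* Multiplicative ℤ where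
  toFun u := Multiplicative.ofAdd (v.oz (u : k))
  map_one' := by rw [Units.val_one, v.oz_one]; rfl
  map_mul' a b := by rw [Units.val_mul, v.oz_mul a.ne_zero b.ne_zero]; rfl

theorem Place.oz_inv (v : Place 𝕜 k) {f : k} (hf : f ≠ 0) : v.oz f⁻¹ = - v.oz f := by
  have h := v.oz_mul hf (inv_ne_zero hf)
  rw [mul_inv_cancel₀ hf, v.oz_one] at h
  linarith

theorem Place.oz_zpow (v : Place 𝕜 k) {f : k} (hf : f ≠ 0) (n : ℤ) : v.oz (f ^ n) = n * v.oz f := by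
  have h := map_zpow v.ozHom (Units.mk0 f hf) n
  have h2 := congrArg Multiplicative.toAdd h
  rw [toAdd_zpow] at h2
  have h3 : Multiplicative.toAdd (v.ozHom (Units.mk0 f hf ^ n)) = v.oz (f ^ n) := by
    change v.oz (((Units.mk0 f hf) ^ n : kˣ) : k) = _
    rw [Units.val_zpow_eq_zpow_val]
    rfl
  rw [h3] at h2
  rw [h2]
  rfl

/-- Two descriptions of the same normalized valuation. -/
theorem Place.valuation_eq (v : Place 𝕜 k) (w : Valuation k ℤᵐ⁰) (hw : ∃ ϖ, w ϖ = exp (-1 : ℤ))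
    (h : ∀ f, w f ≤ 1 ↔ 0 ≤ v.ord f) {f : k} (hf : f ≠ 0) : w f = exp (-(v.oz f)) := by
  obtain ⟨ϖ, hϖ⟩ := hw
  have hϖ0 : ϖ ≠ 0 := by
    rintro rfl
    rw [map_zero] at hϖ
    exact exp_ne_zero hϖ.symm
  have key : ∀ f : k, f ≠ 0 → ∃ m : ℤ, w f = exp (-m) ∧ v.oz f = m * v.oz ϖ := by
    intro f hf
    have hwf : w f ≠ 0 := (Valuation.ne_zero_iff w).2 hf
    refine ⟨- log (w f), ?_, ?_⟩
    · rw [neg_neg, exp_log hwf]
    · set m : ℤ := - log (w f) with hm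
      have h1 : w f = exp (-m) := by rw [hm, neg_neg, exp_log hwf]
      have hg0 : f * ϖ ^ (-m) ≠ 0 := mul_ne_zero hf (zpow_ne_zero _ hϖ0)
      have h2 : w (f * ϖ ^ (-m)) = 1 := by
        rw [map_mul, map_zpow₀, h1, hϖ, ← exp_zsmul, ← exp_add]
        simp
      have h3 : 0 ≤ v.oz (f * ϖ ^ (-m)) := (v.nonneg_iff hg0).1 ((h _).1 h2.le)
      have h4 : 0 ≤ v.oz (f * ϖ ^ (-m))⁻¹ :=
        (v.nonneg_iff (inv_ne_zero hg0)).1 ((h _).1 (by rw [map_inv₀, h2, inv_one]))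
      rw [v.oz_inv hg0] at h4
      have h5 : v.oz (f * ϖ ^ (-m)) = 0 := by linarith
      rw [v.oz_mul hf (zpow_ne_zero _ hϖ0), v.oz_zpow hϖ0] at h5
      linarith
  have ha : v.oz ϖ = 1 := by
    obtain ⟨z, hz⟩ := v.exists_unif
    have hz0 : z ≠ 0 := by
      rintro rfl
      rw [AddValuation.map_zero] at hz
      exact WithTop.top_ne_one hz
    obtain ⟨m, -, hm⟩ := key z hz0
    rw [v.oz_eq (n := 1) (by rw [hz]; rfl)] at hm
    have h1 : 0 ≤ v.oz ϖ := by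
      refine (v.nonneg_iff hϖ0).1 ((h _).1 ?_)
      rw [hϖ, ← exp_zero]
      exact exp_le_exp.2 (by norm_num)
    rcases Int.eq_one_or_neg_one_of_mul_eq_one' hm.symm with ⟨_, h2⟩ | ⟨_, h2⟩
    · exact h2
    · omega
  obtain ⟨m, h1, h2⟩ := key f hf
  rw [ha, mul_one] at h2
  rw [h1, h2]

/-- the valuation ring of a place -/
noncomputable def Place.ring (Q : Place 𝕜 k) : ValuationSubring k where
  carrier := {x | 0 ≤ Q.ord x}
  mul_mem' := by
    intro a b ha hb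
    change 0 ≤ Q.ord (a * b)
    rw [AddValuation.map_mul]
    exact add_nonneg ha hb
  one_mem' := by
    change 0 ≤ Q.ord 1
    rw [AddValuation.map_one]
  add_mem' := by
    intro a b ha hb
    exact le_trans (le_min ha hb) (Q.ord.map_add a b)
  zero_mem' := by
    change 0 ≤ Q.ord 0
    rw [AddValuation.map_zero]
    exact le_top
  neg_mem' := by
    intro a ha
    change 0 ≤ Q.ord (-a)
    rw [AddValuation.map_neg]
    exact ha
  mem_or_inv_mem' := by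
    intro x
    change 0 ≤ Q.ord x ∨ 0 ≤ Q.ord x⁻¹
    by_cases hx : x = 0
    · left
      rw [hx, AddValuation.map_zero]
      exact le_top
    · rw [Q.nonneg_iff hx, Q.nonneg_iff (inv_ne_zero hx), Q.oz_inv hx]
      omega

theorem Place.mem_ring (Q : Place 𝕜 k) {x : k} : x ∈ Q.ring ↔ 0 ≤ Q.ord x := Iff.rfl

theorem Place.ring_ord (Q : Place 𝕜 k) (x : Q.ring) : 0 ≤ Q.ord (x : k) := x.2

theorem Place.isUnit_of (Q : Place 𝕜 k) (x : Q.ring) (h : Q.oz (x : k) = 0) (h0 : x ≠ 0) :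
    IsUnit x := by
  have hx : (x : k) ≠ 0 := fun h => h0 (Subtype.ext h)
  have h1 : (x : k)⁻¹ ∈ Q.ring := by
    rw [Q.mem_ring, Q.nonneg_iff (inv_ne_zero hx), Q.oz_inv hx, h, neg_zero]
  exact IsUnit.of_mul_eq_one ⟨(x : k)⁻¹, h1⟩ (Subtype.ext (mul_inv_cancel₀ hx))

theorem Place.oz_of_isUnit (Q : Place 𝕜 k) (x : Q.ring) (h : IsUnit x) : Q.oz (x : k) = 0 := by
  obtain ⟨u, rfl⟩ := h
  have h0 : ((u : Q.ring) : k) ≠ 0 := by
    intro h1
    exact u.ne_zero (Subtype.ext h1)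
  have h1 : 0 ≤ Q.oz ((u : Q.ring) : k) := (Q.nonneg_iff h0).1 (u : Q.ring).2
  have h2 : ((u : Q.ring) : k) * ((↑u⁻¹ : Q.ring) : k) = 1 := by
    exact congrArg (Subtype.val) (u.mul_inv)
  have h3 : ((↑u⁻¹ : Q.ring) : k) ≠ 0 := by
    intro h4
    rw [h4, mul_zero] at h2
    exact zero_ne_one h2
  have h4 : 0 ≤ Q.oz ((↑u⁻¹ : Q.ring) : k) := (Q.nonneg_iff h3).1 (↑u⁻¹ : Q.ring).2
  have h5 := Q.oz_mul h0 h3
  rw [h2, Q.oz_one] at h5
  omega

instance (Q : Place 𝕜 k) : IsDiscreteValuationRing Q.ring := by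
  apply IsDiscreteValuationRing.ofHasUnitMulPowIrreducibleFactorization
  obtain ⟨z, hz⟩ := Q.exists_unif
  have hz0 : z ≠ 0 := by
    rintro rfl
    rw [AddValuation.map_zero] at hz
    exact WithTop.top_ne_one hz
  have hz1 : Q.oz z = 1 := Q.oz_eq (by rw [hz]; rfl)
  have hzr : z ∈ Q.ring := by rw [Q.mem_ring, hz]; exact zero_le_one
  have hz0' : (⟨z, hzr⟩ : Q.ring) ≠ 0 := fun h => hz0 (congrArg Subtype.val h)
  refine ⟨⟨z, hzr⟩, ⟨?_, ?_⟩, ?_⟩
  · intro h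
    have := Q.oz_of_isUnit _ h
    rw [hz1] at this
    exact one_ne_zero this
  · intro a b hab
    have ha0 : a ≠ 0 := by rintro rfl; rw [zero_mul] at hab; exact hz0' hab
    have hb0 : b ≠ 0 := by rintro rfl; rw [mul_zero] at hab; exact hz0' hab
    have ha : (a : k) ≠ 0 := fun h => ha0 (Subtype.ext h)
    have hb : (b : k) ≠ 0 := fun h => hb0 (Subtype.ext h)
    have h1 : z = (a : k) * (b : k) := congrArg Subtype.val hab
    have h2 := Q.oz_mul ha hb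
    rw [← h1, hz1] at h2
    have h3 : 0 ≤ Q.oz (a : k) := (Q.nonneg_iff ha).1 a.2
    have h4 : 0 ≤ Q.oz (b : k) := (Q.nonneg_iff hb).1 b.2
    rcases h3.eq_or_lt' with h5 | h5
    · exact Or.inl (Q.isUnit_of a h5 ha0)
    · exact Or.inr (Q.isUnit_of b (by omega) hb0)
  · intro x hx
    have hx' : (x : k) ≠ 0 := fun h => hx (Subtype.ext h)
    have h3 : 0 ≤ Q.oz (x : k) := (Q.nonneg_iff hx').1 x.2
    obtain ⟨n, hn⟩ := Int.eq_ofNat_of_zero_le h3
    refine ⟨n, ?_⟩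
    have hy0 : (x : k) * z ^ (-(n : ℤ)) ≠ 0 := mul_ne_zero hx' (zpow_ne_zero _ hz0)
    have hy1 : Q.oz ((x : k) * z ^ (-(n : ℤ))) = 0 := by
      rw [Q.oz_mul hx' (zpow_ne_zero _ hz0), Q.oz_zpow hz0, hz1, hn]
      ring
    have hyr : (x : k) * z ^ (-(n : ℤ)) ∈ Q.ring := by
      rw [Q.mem_ring, Q.nonneg_iff hy0, hy1]
    have hy0' : (⟨_, hyr⟩ : Q.ring) ≠ 0 := fun h => hy0 (congrArg Subtype.val h)
    obtain ⟨u, hu⟩ := Q.isUnit_of ⟨_, hyr⟩ hy1 hy0'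
    refine ⟨u, Subtype.ext ?_⟩
    rw [hu]
    change z ^ n * ((x : k) * z ^ (-(n : ℤ))) = x
    rw [zpow_neg, zpow_natCast]
    field_simp

end general

end MP7Z
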